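import Pool.Agent.Lib.MP_634427_lc.Small.Dec
import Pool.Agent.Lib.MP_634427_lc.ProjCands

/-!
# Unique projections and NP = coNP
-/

namespace Pool.Agent.Lib.MP_634427_lc.Small

open Pool.Agent.Lib.MP_634427_lc

/-- `w` comes before `u`: they agree up to a position where `u` has a one and `w` a zero. -/
def Bef (w u : Word) : Prop :=
  ∃ i < u.length, u.getD i false = true ∧ w.take (i + 1) = u.take i ++ [false]

lemma not_bef_nil (w : Word) : ¬ Bef w [] := by
  rintro ⟨i, hi, -⟩
  simp at hi

lemma bef_cons {b : Bool} {w u : Word} (h : Bef w u) : Bef (b :: w) (b :: u) := by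
  obtain ⟨i, hi, h1, h2⟩ := h
  refine ⟨i + 1, by simpa using hi, by simpa using h1, ?_⟩
  rw [List.take_succ_cons, List.take_succ_cons, h2, List.cons_append]

lemma of_bef_cons {b : Bool} {w u : Word} (h : Bef (b :: w) (b :: u)) : Bef w u := by
  obtain ⟨i, hi, h1, h2⟩ := h
  cases i with
  | zero =>
    simp only [List.getD_cons_zero] at h1
    subst h1
    simp at h2
  | succ i =>
    refine ⟨i, by simpa using hi, by simpa using h1, ?_⟩
    rw [List.take_succ_cons, List.take_succ_cons, List.cons_append] at h2
    exact (List.cons.inj h2).2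

lemma not_bef_true_false (w u : Word) : ¬ Bef (true :: w) (false :: u) := by
  rintro ⟨i, hi, h1, h2⟩
  cases i with
  | zero => simp at h1
  | succ i =>
    rw [List.take_succ_cons, List.take_succ_cons, List.cons_append] at h2
    exact absurd (List.cons.inj h2).1 (by simp)

lemma bef_false_true (w u : Word) : Bef (false :: w) (true :: u) :=
  ⟨0, by simp, by simp, by simp⟩

/-- Two words of the same length are comparable. -/
lemma bef_total : ∀ {u u' : Word}, u.length = u'.length → u = u' ∨ Bef u u' ∨ Bef u' u
  | [], [], _ => Or.inl rfl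
  | [], _ :: _, h => by simp at h
  | _ :: _, [], h => by simp at h
  | a :: u, b :: u', h => by
    have h' : u.length = u'.length := by simpa using h
    cases a <;> cases b
    · rcases bef_total h' with rfl | h1 | h1
      · exact Or.inl rfl
      · exact Or.inr (Or.inl (bef_cons h1))
      · exact Or.inr (Or.inr (bef_cons h1))
    · exact Or.inr (Or.inl (bef_false_true _ _))
    · exact Or.inr (Or.inr (bef_false_true _ _))
    · rcases bef_total h' with rfl | h1 | h1
      · exact Or.inl rfl
      · exact Or.inr (Or.inl (bef_cons h1))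
      · exact Or.inr (Or.inr (bef_cons h1))

/-- There is a first word with a given property. -/
lemma exists_first (n : ℕ) : ∀ (P : Word → Prop), (∃ w, w.length = n ∧ P w) →
    ∃ u, u.length = n ∧ P u ∧ ∀ w, w.length = n → P w → ¬ Bef w u := by
  induction n with
  | zero =>
    rintro P ⟨w, hw, hP⟩
    rw [List.length_eq_zero_iff] at hw
    subst hw
    exact ⟨[], rfl, hP, fun w _ _ => not_bef_nil w⟩
  | succ n ih =>
    rintro P ⟨w, hw, hP⟩
    by_cases hf : ∃ w, w.length = n ∧ P (false :: w)
    · obtain ⟨u, hu, hPu, hmin⟩ := ih (fun w => P (false :: w)) hf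
      refine ⟨false :: u, by simp [hu], hPu, fun w' hw' hP' hB => ?_⟩
      cases w' with
      | nil => simp at hw'
      | cons b w' =>
        cases b
        · exact hmin w' (by simpa using hw') hP' (of_bef_cons hB)
        · exact not_bef_true_false _ _ hB
    · cases w with
      | nil => simp at hw
      | cons b w =>
        cases b
        · exact absurd ⟨w, by simpa using hw, hP⟩ hf
        · obtain ⟨u, hu, hPu, hmin⟩ := ih (fun w => P (true :: w)) ⟨w, by simpa using hw, hP⟩
          refine ⟨true :: u, by simp [hu], hPu, fun w' hw' hP' hB => ?_⟩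
          cases w' with
          | nil => simp at hw'
          | cons b w' =>
            cases b
            · exact hf ⟨w', by simpa using hw', hP'⟩
            · exact hmin w' (by simpa using hw') hP' (of_bef_cons hB)

/-- If unique projections of witnesses have short lists of candidates and NP = coNP, then
P = NP. -/
theorem inP_of_coNP (hP : ProjCands) (hco : ∀ L : Set Word, InNP L → InNP Lᶜ) (L : Set Word)
    (hL : InNP L) : InP L := by
  obtain ⟨Rel, m, hRel, hm, hL⟩ := exists_rel hL
  -- the question whether there is an earlier witness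
  let p : (Word × Word) × Word → ℕ → Bool := fun c i =>
    c.1.2.getD i false && decide (c.2.take (i + 1) = c.1.2.take i ++ [false])
  let G : (Word × Word) × Word → Bool := fun c =>
    Rel (c.1.1, c.2) && (List.range c.1.2.length).any (p c)
  have hp : PT fun q : ((Word × Word) × Word) × ℕ => p q.1 q.2 :=
    PT.and (PT.getLD PT.snd (PT.snd' (PT.fst' PT.fst)) (PT.const false))
      (PT.eqWord (PT.take (PT.succ PT.snd) (PT.snd' PT.fst))
        (PT.append (PT.take PT.snd (PT.snd' (PT.fst' PT.fst))) (PT.const [false])))
  have hG : PT G := PT.and (hRel.comp (PT.pair (PT.fst' PT.fst) PT.snd))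
    (PT.any (PT.range (PT.length (PT.snd' PT.fst))) hp)
  have hGB : ∀ x u w, G ((x, u), w) = true ↔ Rel (x, w) = true ∧ Bef w u := by
    intro x u w
    simp only [G, p, Bef, Bool.and_eq_true, List.any_eq_true, List.mem_range, decide_eq_true_eq]
  obtain ⟨B, hB, hB'⟩ := exists_np_code G (fun a => m a.1) hG (hm.comp PT.fst)
  obtain ⟨Rel2, m2, hRel2, hm2, hL2⟩ := exists_rel (hco B hB)
  obtain ⟨k, hk⟩ := hm2.size_le
  have hmin : ∀ x u, code (enc (x, u)) ∈ Bᶜ ↔
      ∀ w, w.length = m x → Rel (x, w) = true → ¬ Bef w u := by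
    intro x u
    rw [Set.mem_compl_iff, hB' (x, u)]
    constructor
    · intro h w hw hR hBf
      exact h ⟨w, hw, (hGB x u w).2 ⟨hR, hBf⟩⟩
    · rintro h ⟨w, hw, hGw⟩
      obtain ⟨h1, h2⟩ := (hGB x u w).1 hGw
      exact h w hw h1 h2
  -- the length of the second part
  let bd : Word → ℕ := fun x => (2 * (2 * (2 * x.length + 2 * m x + 1) + 1) + 2) ^ k
  have hbd : PT bd := PT.pow (PT.add (PT.mul (PT.const 2) (PT.add (PT.mul (PT.const 2)
    (PT.add (PT.add (PT.mul (PT.const 2) (PT.length PT.id)) (PT.mul (PT.const 2) hm))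
      (PT.const 1))) (PT.const 1))) (PT.const 2)) k
  have hle : ∀ x w : Word, w.length = m x → m2 (code (enc (x, w))) ≤ bd x := by
    intro x w hw
    have h1 := hk (code (enc (x, w)))
    rw [sz_nat] at h1
    refine h1.trans (Nat.pow_le_pow_left ?_ k)
    have h2 := sz_word_le (code (enc (x, w)))
    rw [length_code] at h2
    have h3 : (enc (x, w)).size = sz x + sz w + 1 := rfl
    have h4 := sz_word_le x
    have h5 := sz_word_le w
    omega
  let z : Word × Word → Word := fun c => code (enc (c.1, c.2.take (m c.1)))
  have henc : PT (fun a : Word × Word => (enc a : BT)) := ⟨_, .id, fun _ => rfl⟩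
  have hz : PT z := PT.code (henc.comp (PT.pair PT.fst (PT.take (hm.comp PT.fst) PT.snd)))
  let Rel' : Word × Word → Bool := fun c => Rel (c.1, c.2.take (m c.1)) &&
    Rel2 (z c, (c.2.drop (m c.1)).take (m2 (z c)))
  have hRel' : PT Rel' := PT.and
    (hRel.comp (PT.pair PT.fst (PT.take (hm.comp PT.fst) PT.snd)))
    (hRel2.comp (PT.pair hz (PT.take (hm2.comp hz) (PT.drop (hm.comp PT.fst) PT.snd))))
  obtain ⟨cand, hcand, hc⟩ := hP Rel' (fun c => c.2.take (m c.1)) (fun x => m x + bd x) m hRel'
    (PT.take (hm.comp PT.fst) PT.snd) (PT.add hm hbd) hm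
  refine ⟨fun x => (cand x).any fun u => decide (u.length = m x) && Rel (x, u),
    PT.any (p := fun (x : Word) (u : Word) => decide (u.length = m x) && Rel (x, u)) hcand
      (PT.and (PT.eqNat (PT.length PT.snd) (hm.comp PT.fst))
        (hRel.comp (PT.pair PT.fst PT.snd))), fun x => ?_⟩
  rw [hL x]
  simp only [List.any_eq_true, Bool.and_eq_true, decide_eq_true_eq]
  constructor
  · intro h
    obtain ⟨u, hu, hPu, hfirst⟩ := exists_first (m x) (fun w => Rel (x, w) = true) h
    refine ⟨u, hc x u hu ?_ ?_, hu, hPu⟩
    · obtain ⟨v, hv, hRv⟩ := (hL2 _).1 ((hmin x u).2 hfirst)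
      have h1 := hle x u hu
      have h2 : (u ++ (v ++ List.replicate (bd x - v.length) false)).take (m x) = u := by
        rw [← hu, List.take_left']
        rfl
      refine ⟨u ++ (v ++ List.replicate (bd x - v.length) false), ?_, ?_⟩
      · simp only [List.length_append, List.length_replicate]
        omega
      · simp only [Rel', z, h2, Bool.and_eq_true]
        refine ⟨hPu, ?_⟩
        rw [← hu, List.drop_left' rfl, ← hv, List.take_left' rfl]
        exact hRv
    · intro W hW hRW
      simp only [Rel', Bool.and_eq_true] at hRW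
      have hlen : (W.take (m x)).length = m x := by
        rw [List.length_take]
        omega
      have h3 : z (x, W) ∈ Bᶜ := by
        refine (hL2 _).2 ⟨_, ?_, hRW.2⟩
        rw [List.length_take, List.length_drop, min_eq_left]
        have := hle x (W.take (m x)) hlen
        show m2 (code (enc (x, W.take (m x)))) ≤ _
        omega
      have h4 := (hmin x (W.take (m x))).1 h3
      rcases bef_total (u := W.take (m x)) (u' := u) (by rw [hlen, hu]) with h5 | h5 | h5
      · exact h5
      · exact absurd h5 (hfirst _ hlen hRW.1)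
      · exact absurd h5 (h4 _ hu hPu)
  · rintro ⟨u, -, hu, hR⟩
    exact ⟨u, hu, hR⟩

end Pool.Agent.Lib.MP_634427_lc.Small
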