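import Pool.Agent.Lib.MP_634427_lc.Small.Defs

/-!
# Existence of certificates
-/

namespace Pool.Agent.Lib.MP_634427_lc.Small

open Pool.Agent.Lib.MP_634427_lc

lemma complete_length_ext (V : List Word) : (ext V).length = 2 * V.length := by
  unfold ext
  induction V with
  | nil => rfl
  | cons v V ih =>
    rw [List.flatMap_cons, List.length_append, ih]
    simp only [List.length_cons, List.length_nil]
    omega

lemma complete_length_of_mem_ext {V : List Word} {j : ℕ} (h : ∀ v ∈ V, v.length = j) :
    ∀ v ∈ ext V, v.length = j + 1 := by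
  intro v hv
  unfold ext at hv
  rw [List.mem_flatMap] at hv
  obtain ⟨u, hu, hv⟩ := hv
  simp only [List.mem_cons, List.not_mem_nil, or_false] at hv
  rcases hv with rfl | rfl <;> simp [h u hu]

/-- If deletions (with certificates of size at most `Z x`) are possible for all lists with more
than `R x` words, then there is a list of steps that leads to at most `R x` words of full length. -/
theorem exists_run (f : Word → Word × List Word) (M R m Z : Word → ℕ) (hR : ∀ x, 1 ≤ R x)
    (hdel : ∀ x V, R x < V.length → V.length ≤ 2 * R x + 1 → (∀ v ∈ V, v.length ≤ m x) →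
      ∃ (Ds : List Word) (κ : List Bool) (i : ℕ), i < V.length ∧ delOK f (M x) x V Ds κ i = true ∧
        sz (Ds, (κ, i)) ≤ Z x) (x : Word) :
    ∃ cs : List Step, sz cs ≤ m x * ((R x + 2) * (Z x + 2)) ∧ (run f M R m x cs).length ≤ R x ∧
      ∀ v ∈ run f M R m x cs, v.length = m x := by
  have inner : ∀ j ≤ m x, ∀ n : ℕ, ∀ cs : List Step, (run f M R m x cs).length ≤ R x + n →
      (run f M R m x cs).length ≤ 2 * R x + 1 → (∀ v ∈ run f M R m x cs, v.length = j) →
      ∃ cs' : List Step, sz cs' ≤ sz cs + n * (Z x + 2) ∧ (run f M R m x cs').length ≤ R x ∧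
        ∀ v ∈ run f M R m x cs', v.length = j := by
    intro j hj n
    induction n with
    | zero =>
      intro cs h1 _ h3
      exact ⟨cs, by omega, by omega, h3⟩
    | succ n ih =>
      intro cs h1 h2 h3
      by_cases hle : (run f M R m x cs).length ≤ R x
      · exact ⟨cs, by omega, hle, h3⟩
      · obtain ⟨Ds, κ, i, hi, hd, hs⟩ := hdel x (run f M R m x cs) (by omega) h2
          (fun v hv => by rw [h3 v hv]; exact hj)
        have hrun : run f M R m x (some (Ds, (κ, i)) :: cs) =
            (run f M R m x cs).take i ++ (run f M R m x cs).drop (i + 1) := if_pos hd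
        have hlen : (run f M R m x (some (Ds, (κ, i)) :: cs)).length =
            (run f M R m x cs).length - 1 := by
          rw [hrun, List.length_append, List.length_take, List.length_drop]
          omega
        obtain ⟨cs', h4, h5, h6⟩ := ih (some (Ds, (κ, i)) :: cs) (by omega) (by omega) (by
          intro v hv
          rw [hrun, List.mem_append] at hv
          rcases hv with hv | hv
          · exact h3 v (List.mem_of_mem_take hv)
          · exact h3 v (List.mem_of_mem_drop hv))
        refine ⟨cs', ?_, h5, h6⟩
        have h7 : sz (some (Ds, (κ, i)) :: cs) ≤ Z x + 2 + sz cs := by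
          rw [sz_cons, sz_some]
          omega
        calc sz cs' ≤ sz (some (Ds, (κ, i)) :: cs) + n * (Z x + 2) := h4
          _ ≤ Z x + 2 + sz cs + n * (Z x + 2) := by omega
          _ = sz cs + (n + 1) * (Z x + 2) := by ring
  have main : ∀ j ≤ m x, ∃ cs : List Step, sz cs ≤ j * ((R x + 2) * (Z x + 2)) ∧
      (run f M R m x cs).length ≤ R x ∧ ∀ v ∈ run f M R m x cs, v.length = j := by
    intro j
    induction j with
    | zero =>
      intro _
      refine ⟨[], by simp, hR x, ?_⟩
      intro v hv
      change v ∈ [[]] at hv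
      rw [List.mem_singleton] at hv
      rw [hv]
      rfl
    | succ j ih =>
      intro hj
      obtain ⟨cs, h1, h2, h3⟩ := ih (by omega)
      have hrun : run f M R m x (none :: cs) = ext (run f M R m x cs) := by
        refine if_pos ?_
        rw [Bool.and_eq_true]
        refine ⟨decide_eq_true h2, ?_⟩
        rw [List.all_eq_true]
        intro v hv
        rw [h3 v hv]
        exact decide_eq_true (by omega)
      have hlen : (run f M R m x (none :: cs)).length = 2 * (run f M R m x cs).length := by
        rw [hrun, complete_length_ext]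
      obtain ⟨cs', h4, h5, h6⟩ := inner (j + 1) hj (R x) (none :: cs) (by omega) (by omega) (by
        rw [hrun]
        exact complete_length_of_mem_ext h3)
      refine ⟨cs', ?_, h5, h6⟩
      have h7 : sz (none :: cs : List Step) ≤ sz cs + 2 := by
        rw [sz_cons, sz_none]
        omega
      calc sz cs' ≤ sz (none :: cs : List Step) + R x * (Z x + 2) := h4
        _ ≤ j * ((R x + 2) * (Z x + 2)) + 2 + R x * (Z x + 2) := by omega
        _ ≤ (j + 1) * ((R x + 2) * (Z x + 2)) := by nlinarith
  exact main (m x) le_rfl

/-- If there is no witness, then there is an accepted certificate. -/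
theorem check_complete (Rel : Word × Word → Bool) (f : Word → Word × List Word)
    (M R m Z : Word → ℕ) (hR : ∀ x, 1 ≤ R x)
    (hdel : ∀ x V, R x < V.length → V.length ≤ 2 * R x + 1 → (∀ v ∈ V, v.length ≤ m x) →
      ∃ (Ds : List Word) (κ : List Bool) (i : ℕ), i < V.length ∧ delOK f (M x) x V Ds κ i = true ∧
        sz (Ds, (κ, i)) ≤ Z x) (x : Word) (hx : ¬ ∃ w : Word, w.length = m x ∧ Rel (x, w) = true) :
    ∃ cs : List Step, sz cs ≤ m x * ((R x + 2) * (Z x + 2)) ∧
      check Rel f M R m (x, cs) = true := by
  obtain ⟨cs, h1, _, h3⟩ := exists_run f M R m Z hR hdel x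
  refine ⟨cs, h1, ?_⟩
  unfold check
  rw [List.all_eq_true]
  intro v hv
  have hl := h3 v hv
  rw [Bool.and_eq_true]
  refine ⟨decide_eq_true (by rw [hl]), ?_⟩
  rw [Bool.not_eq_true', Bool.and_eq_false_iff]
  right
  by_contra hne
  rw [Bool.not_eq_false] at hne
  exact hx ⟨v, hl, hne⟩

end Pool.Agent.Lib.MP_634427_lc.Small
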