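import Pool.Agent.Lib.MP_634427_lc.Model

/-!
# Small reductions
-/

namespace Pool.Agent.Lib.MP_634427_lc

open Classical in
/-- The list of the answers of the oracle `S` to the queries `l`. -/
noncomputable def answerList (S : Set Word) (l : List Word) : List Bool :=
  l.map fun w => decide (w ∈ S)

/-- `A` is reducible to `S` by a small reduction: in polynomial time one computes from `x` a word
`e` and a list of queries (of any polynomial length), and whether `x` is in `A` depends only on `e`
and on the answers to the queries (by an arbitrary rule `E`, not necessarily computable). The
length `|e|` plus the number of the queries is `O(|x| ^ (k / (k + 1)))`. -/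
def SmallReducible (k : ℕ) (A S : Set Word) : Prop :=
  ∃ (f : Word → Word × List Word) (E : Word → List Bool → Prop) (c : ℕ), PT f ∧
    (∀ x, ((f x).1.length + (f x).2.length) ^ (k + 1) ≤ c * (x.length + 1) ^ k) ∧
    ∀ x, x ∈ A ↔ E (f x).1 (answerList S (f x).2)

end Pool.Agent.Lib.MP_634427_lc
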