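import Pool.Agent.Lib.MP_634427_lc.Final
import Pool.Agent.Lib.MP_634427_lc.Small.Model

/-!
# Certificates of arbitrary types; sets in NP given by relations
-/

namespace Pool.Agent.Lib.MP_634427_lc.Small

open Pool.Agent.Lib.MP_634427_lc

/-- Codes of `α` can be decoded (by a total function on trees) in polynomial time. -/
def HasDec (α : Type) [Enc α] : Prop := ∃ d : BT → α, PT d ∧ ∀ a, d (enc a) = a

/-- A tree as the list of the left subtrees along the right spine. -/
def spineList : BT → List BT
  | .nil => []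
  | .node a b => a :: spineList b

lemma enc_spineList (t : BT) : enc (spineList t) = t := by
  induction t with
  | nil => rfl
  | node a b _ ih =>
    show BT.node (enc a) (enc (spineList b)) = _
    rw [ih]; rfl

lemma pt_spineList : PT spineList := ⟨_, .id, fun t => (enc_spineList t).symm⟩

lemma spineList_un (n : ℕ) : spineList (un n) = List.replicate n BT.nil := by
  induction n with
  | zero => rfl
  | succ n ih =>
    show BT.nil :: spineList (un n) = _
    rw [ih]; rfl

lemma spineList_enc {α : Type} [Enc α] (l : List α) : spineList (enc l) = l.map enc := by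
  induction l with
  | nil => rfl
  | cons a l ih =>
    show enc a :: spineList (enc l) = _
    rw [ih]; rfl

lemma hasDec_bool : HasDec Bool := by
  refine ⟨fun t => !(spineList t).isEmpty, PT.not (PT.isEmpty pt_spineList), fun a => ?_⟩
  cases a <;> rfl

lemma hasDec_nat : HasDec ℕ := by
  refine ⟨fun t => (spineList t).length, PT.length pt_spineList, fun a => ?_⟩
  show (spineList (un a)).length = a
  rw [spineList_un, List.length_replicate]

lemma hasDec_list {α : Type} [Enc α] (h : HasDec α) : HasDec (List α) := by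
  obtain ⟨d, hd, hda⟩ := h
  refine ⟨fun t => (spineList t).map d, PT.map (f := fun (_ : BT) a => d a) pt_spineList
    (hd.comp PT.snd), fun l => ?_⟩
  show (spineList (enc l)).map d = l
  rw [spineList_enc, List.map_map]
  have : d ∘ enc = (id : α → α) := funext hda
  rw [this, List.map_id]

lemma hasDec_prod {α β : Type} [Enc α] [Enc β] (h : HasDec α) (h' : HasDec β) :
    HasDec (α × β) := by
  obtain ⟨d, hd, hda⟩ := h
  obtain ⟨d', hd', hda'⟩ := h'
  have h1 : PT fun t : BT => t.left := ⟨_, .left, fun _ => rfl⟩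
  have h2 : PT fun t : BT => t.right := ⟨_, .right, fun _ => rfl⟩
  refine ⟨fun t => (d t.left, d' t.right), PT.pair (hd.comp h1) (hd'.comp h2), fun p => ?_⟩
  show (d (enc p.1), d' (enc p.2)) = p
  rw [hda, hda']

lemma hasDec_option {α : Type} [Enc α] (h : HasDec α) : HasDec (Option α) := by
  obtain ⟨d, hd, hda⟩ := h
  refine ⟨fun t => ((spineList t).head?).map d,
    (PT.casesOption (g := fun (_ : BT) a => some (d a)) (PT.head? pt_spineList) (PT.const none)
      (PT.some (hd.comp PT.snd))).of_eq fun t => by cases (spineList t).head? <;> rfl,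
    fun o => ?_⟩
  cases o with
  | none => rfl
  | some a =>
    show some (d (enc a)) = _
    rw [hda]

/-- A set with certificates of polynomial size that can be checked in polynomial time is in NP. -/
theorem inNP_of_cert {γ : Type} [Enc γ] (hdec : HasDec γ) (G : Word × γ → Bool) (hG : PT G)
    (L : Set Word) (hs : ∀ x c, G (x, c) = true → x ∈ L) (k : ℕ)
    (hc : ∀ x ∈ L, ∃ c, sz c ≤ (sz x + 2) ^ k ∧ G (x, c) = true) : InNP L := by
  obtain ⟨d, hd, hda⟩ := hdec
  obtain ⟨e, he⟩ : PB fun n => 2 * (2 * n + 2) ^ k + 1 :=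
    PB.add (PB.mul (PB.const 2) (PB.pow (PB.add (PB.mul (PB.const 2) PB.id) (PB.const 2)) k))
      (PB.const 1)
  refine ⟨fun p => G (p.1, d (decode p.2)), 3 ^ e,
    hG.comp (PT.pair PT.fst (hd.comp (PT.decode PT.snd))), fun x => ⟨fun hx => ?_, ?_⟩⟩
  · obtain ⟨c, h1, h2⟩ := hc x hx
    refine ⟨code (enc c), ?_, ?_⟩
    · rw [length_code]
      have h3 := sz_word_le x
      have h4 : (sz x + 2) ^ k ≤ (2 * x.length + 2) ^ k := Nat.pow_le_pow_left (by omega) k
      have h5 := he x.length
      have h6 := pow_le_pow_add e x.length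
      have h7 : (enc c).size ≤ (sz x + 2) ^ k := h1
      beta_reduce at h5
      omega
    · show G (x, d (decode (code (enc c)))) = true
      rw [decode_code, hda]
      exact h2
  · rintro ⟨u, _, hu⟩
    exact hs x _ hu

/-- Existential questions about objects `a` form a set in NP of codes. -/
theorem exists_np_code {α : Type} [Enc α] (G : α × Word → Bool) (m : α → ℕ) (hG : PT G)
    (hm : PT m) : ∃ A : Set Word, InNP A ∧
      ∀ a, code (enc a) ∈ A ↔ ∃ u : Word, u.length = m a ∧ G (a, u) = true := by
  let G' : α × Word → Bool := fun p => decide (p.2.length = m p.1) && G p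
  have hG' : PT G' := PT.and (PT.eqNat (PT.length PT.snd) (hm.comp PT.fst)) hG
  obtain ⟨F, hF, hFG⟩ := hG'
  have hFpt : PT F := ⟨F, hF, fun _ => rfl⟩
  let V : Word × Word → Bool := fun p => !decide (F (BT.node (decode p.1) (enc p.2)) = BT.nil)
  have hencPT : PT (fun w : Word => (enc w : BT)) := ⟨_, .id, fun _ => rfl⟩
  have hV : PT V := PT.not (PT.isNilBT (hFpt.comp (PT.pairBT (PT.decode PT.fst)
    (hencPT.comp PT.snd))))
  have hVG : ∀ (a : α) (u : Word), V (code (enc a), u) = G' (a, u) := by
    intro a u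
    have h1 := hFG (a, u)
    rw [enc_pair] at h1
    simp only [V, decode_code]
    rw [h1]
    cases G' (a, u) <;> simp
  obtain ⟨k, hk⟩ := hm.size_le
  have hmk : ∀ a, m a ≤ (sz a + 2) ^ k := fun a => by
    have := hk a; rwa [sz_nat] at this
  obtain ⟨e, he⟩ : PB fun n => (n + 2) ^ k := ⟨k, fun n => le_rfl⟩
  refine ⟨{w | ∃ u : Word, u.length ≤ w.length ^ (3 ^ e) + 3 ^ e ∧ V (w, u) = true},
    ⟨V, 3 ^ e, hV, fun _ => Iff.rfl⟩, fun a => ?_⟩
  constructor
  · rintro ⟨u, _, hu⟩
    rw [hVG] at hu
    simp only [G', Bool.and_eq_true, decide_eq_true_eq] at hu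
    exact ⟨u, hu.1, hu.2⟩
  · rintro ⟨u, h1, h2⟩
    refine ⟨u, ?_, ?_⟩
    · have h3 : (code (enc a)).length = 2 * sz a + 1 := length_code _
      have h4 : (sz a + 2) ^ k ≤ ((code (enc a)).length + 2) ^ k :=
        Nat.pow_le_pow_left (by rw [h3]; omega) k
      have h5 := he (code (enc a)).length
      have h6 := pow_le_pow_add e (code (enc a)).length
      have h7 := hmk a
      beta_reduce at h5
      omega
    · rw [hVG]
      simp [G', h1, h2]

/-- Sets in NP have relations with witnesses of a fixed length. -/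
theorem exists_rel {L : Set Word} (hL : InNP L) : ∃ (Rel : Word × Word → Bool) (m : Word → ℕ),
    PT Rel ∧ PT m ∧ ∀ x, x ∈ L ↔ ∃ w : Word, w.length = m x ∧ Rel (x, w) = true := by
  obtain ⟨V, c, hV, hL⟩ := hL
  refine ⟨relx V, fun x => wb c x + 1, pt_relx hV, PT.succ (pt_wb c), fun x => ?_⟩
  rw [hL x]
  constructor
  · rintro ⟨u, h1, h2⟩
    exact ⟨pad (wb c x) u, length_pad h1, by rw [relx_pad]; exact h2⟩
  · rintro ⟨w, h1, h2⟩
    obtain ⟨u, h3, _, h4⟩ := of_relx h2 h1
    exact ⟨u, h3, h4⟩

end Pool.Agent.Lib.MP_634427_lc.Small
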