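import Pool.Agent.Lib.MP_634427_lc.Model

/-!
# Many different words of the same length are split well by some coordinate
-/

namespace Pool.Agent.Lib.MP_634427_lc.Small

open Pool.Agent.Lib.MP_634427_lc

/-- Among `M t + 2` different words of length `t` some coordinate has more than `M` ones and more
than `M` zeros. -/
theorem exists_coord (t M : ℕ) (P : Finset Word) (hlen : ∀ D ∈ P, D.length = t)
    (hP : M * t + 2 ≤ P.card) :
    ∃ i < t, M < (P.filter fun D => D.getD i false = true).card ∧
      M < (P.filter fun D => D.getD i false = false).card := by
  classical
  by_contra hcon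
  -- the letter which occurs more often
  obtain ⟨maj, hmaj⟩ : ∃ maj : ℕ → Bool, ∀ i < t,
      (P.filter fun D => D.getD i false ≠ maj i).card ≤ M := by
    refine ⟨fun i => decide (M < (P.filter fun D => D.getD i false = true).card),
      fun i hi => ?_⟩
    by_cases h : M < (P.filter fun D => D.getD i false = true).card
    · have h1 : (P.filter fun D => D.getD i false ≠
          decide (M < (P.filter fun D => D.getD i false = true).card)) =
          P.filter fun D => D.getD i false = false := by
        refine Finset.filter_congr fun D _ => ?_
        rw [decide_eq_true h, ne_eq, Bool.not_eq_true]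
      rw [h1]
      by_contra h2
      exact hcon ⟨i, hi, h, not_le.1 h2⟩
    · have h1 : (P.filter fun D => D.getD i false ≠
          decide (M < (P.filter fun D => D.getD i false = true).card)) =
          P.filter fun D => D.getD i false = true := by
        refine Finset.filter_congr fun D _ => ?_
        rw [decide_eq_false h, ne_eq, Bool.not_eq_false]
      rw [h1]
      exact not_lt.1 h
  -- double counting
  have hdc : ∑ D ∈ P, ((Finset.range t).filter fun i => D.getD i false ≠ maj i).card =
      ∑ i ∈ Finset.range t, (P.filter fun D => D.getD i false ≠ maj i).card :=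
    Finset.sum_card_bipartiteAbove_eq_sum_card_bipartiteBelow
      (r := fun (D : Word) (i : ℕ) => D.getD i false ≠ maj i) (s := P) (t := Finset.range t)
  have hle : ∑ i ∈ Finset.range t, (P.filter fun D => D.getD i false ≠ maj i).card ≤ t * M := by
    have h1 := Finset.sum_le_card_nsmul (Finset.range t)
      (fun i => (P.filter fun D => D.getD i false ≠ maj i).card) M
      (fun i hi => hmaj i (Finset.mem_range.1 hi))
    rwa [Finset.card_range, smul_eq_mul] at h1
  -- all words but one have a difference
  set W : Word := (List.range t).map maj with hW
  have hone : ∀ D ∈ P.erase W,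
      1 ≤ ((Finset.range t).filter fun i => D.getD i false ≠ maj i).card := by
    intro D hD
    rw [Finset.mem_erase] at hD
    rw [Nat.one_le_iff_ne_zero, ← Nat.pos_iff_ne_zero, Finset.card_pos]
    by_contra hne
    rw [Finset.not_nonempty_iff_eq_empty, Finset.filter_eq_empty_iff] at hne
    apply hD.1
    have hl := hlen D hD.2
    refine List.ext_getElem (by rw [hl, hW, List.length_map, List.length_range]) ?_
    intro i h1 h2
    have h3 := hne (Finset.mem_range.2 (hl ▸ h1))
    rw [not_not, List.getD_eq_getElem _ _ h1] at h3
    rw [h3]
    simp [hW]
  have h1 : (P.erase W).card ≤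
      ∑ D ∈ P.erase W, ((Finset.range t).filter fun i => D.getD i false ≠ maj i).card := by
    rw [Finset.card_eq_sum_ones]
    exact Finset.sum_le_sum hone
  have h2 : ∑ D ∈ P.erase W, ((Finset.range t).filter fun i => D.getD i false ≠ maj i).card ≤
      ∑ D ∈ P, ((Finset.range t).filter fun i => D.getD i false ≠ maj i).card :=
    Finset.sum_le_sum_of_subset (Finset.erase_subset _ _)
  have h3 := Finset.pred_card_le_card_erase (s := P) (a := W)
  have h4 : t * M = M * t := Nat.mul_comm _ _
  omega

end Pool.Agent.Lib.MP_634427_lc.Small
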