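import Pool.Agent.Lib.MP_634427_lc.Model

/-!
# The sunflower lemma for rows of words
-/

namespace Pool.Agent.Lib.MP_634427_lc.Small

open Pool.Agent.Lib.MP_634427_lc

theorem sunflower_aux {ι : Type*} [DecidableEq ι] (ρ N : ℕ) (hN : 0 < N)
    (row : ι → Fin ρ → Word) (s : ℕ) : ∀ (κ : Fin ρ → Bool) (C : Finset ι),
    (Finset.univ.filter (fun p => κ p = false)).card = s →
    (∀ c ∈ C, ∀ c' ∈ C, ∀ p, κ p = true → row c p = row c' p) →
    N * (N * ρ ^ 2) ^ s ≤ C.card →
    ∃ (P : Finset ι) (κ : Fin ρ → Bool), P ⊆ C ∧ P.card = N ∧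
      (∀ c ∈ P, ∀ c' ∈ P, ∀ p, κ p = true → row c p = row c' p) ∧
      (∀ c ∈ P, ∀ c' ∈ P, c ≠ c' → ∀ p p', κ p = false → κ p' = false → row c p ≠ row c' p') := by
  induction s with
  | zero =>
    intro κ C hs hagree hC
    rw [pow_zero, mul_one] at hC
    obtain ⟨P, hP, hPN⟩ := Finset.exists_subset_card_eq hC
    refine ⟨P, κ, hP, hPN, fun c hc c' hc' => hagree c (hP hc) c' (hP hc'), ?_⟩
    intro c _ c' _ _ p p' hp _
    rw [Finset.card_eq_zero] at hs
    exact absurd (Finset.mem_filter.2 ⟨Finset.mem_univ p, hp⟩) (by rw [hs]; simp)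
  | succ s ih =>
    intro κ C hs hagree hC
    classical
    set Fp : Finset (Fin ρ) := Finset.univ.filter (fun p => κ p = false) with hFp
    let petal : ι → Finset Word := fun c => Fp.image (row c)
    let Q : Finset (Finset ι) := C.powerset.filter
      (fun P => ∀ c ∈ P, ∀ c' ∈ P, c ≠ c' → Disjoint (petal c) (petal c'))
    have hQ : Q.Nonempty := ⟨∅, by simp [Q]⟩
    obtain ⟨P, hPQ, hPmax⟩ := Finset.exists_max_image Q Finset.card hQ
    have hPC : P ⊆ C := by
      have := (Finset.mem_filter.1 hPQ).1
      exact Finset.mem_powerset.1 this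
    have hPd := (Finset.mem_filter.1 hPQ).2
    by_cases hPN : N ≤ P.card
    · obtain ⟨P', hP', hP'N⟩ := Finset.exists_subset_card_eq hPN
      refine ⟨P', κ, hP'.trans hPC, hP'N,
        fun c hc c' hc' => hagree c (hPC (hP' hc)) c' (hPC (hP' hc')), ?_⟩
      intro c hc c' hc' hcc p p' hp hp' heq
      have hd := hPd c (hP' hc) c' (hP' hc') hcc
      rw [Finset.disjoint_left] at hd
      refine hd (Finset.mem_image.2 ⟨p, Finset.mem_filter.2 ⟨Finset.mem_univ _, hp⟩, rfl⟩)
        (Finset.mem_image.2 ⟨p', Finset.mem_filter.2 ⟨Finset.mem_univ _, hp'⟩, heq.symm⟩)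
    · push Not at hPN
      set U : Finset Word := P.biUnion petal with hU
      have hUcard : U.card ≤ P.card * (s + 1) := by
        refine Finset.card_biUnion_le_card_mul _ _ _ (fun c _ => ?_)
        exact Finset.card_image_le.trans hs.le
      have hsρ : s + 1 ≤ ρ := by
        rw [← hs]
        exact (Finset.card_le_univ _).trans (by simp)
      have hFne : Fp.Nonempty := Finset.card_pos.1 (by omega)
      have hex : ∀ c ∈ C, ∃ x : Fin ρ × Word, x ∈ Fp ×ˢ U ∧ row c x.1 = x.2 := by
        intro c hc
        by_cases hcP : c ∈ P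
        · obtain ⟨p, hp⟩ := hFne
          exact ⟨(p, row c p), Finset.mem_product.2 ⟨hp, Finset.mem_biUnion.2
            ⟨c, hcP, Finset.mem_image.2 ⟨p, hp, rfl⟩⟩⟩, rfl⟩
        · by_contra hno
          push Not at hno
          have hin : insert c P ∈ Q := by
            refine Finset.mem_filter.2 ⟨Finset.mem_powerset.2 ?_, ?_⟩
            · exact Finset.insert_subset hc hPC
            · have key : ∀ c' ∈ P, Disjoint (petal c) (petal c') := by
                intro c' hc'
                rw [Finset.disjoint_left]
                intro w hw hw'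
                obtain ⟨p, hp, rfl⟩ := Finset.mem_image.1 hw
                exact hno (p, row c p) (Finset.mem_product.2 ⟨hp, Finset.mem_biUnion.2
                  ⟨c', hc', hw'⟩⟩) rfl
              intro c1 h1 c2 h2 h12
              rcases Finset.mem_insert.1 h1 with rfl | h1' <;>
                rcases Finset.mem_insert.1 h2 with rfl | h2'
              · exact absurd rfl h12
              · exact key c2 h2'
              · exact (key c1 h1').symm
              · exact hPd c1 h1' c2 h2' h12
          have := hPmax _ hin
          rw [Finset.card_insert_of_notMem hcP] at this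
          omega
      have : Nonempty (Fin ρ × Word) := ⟨(hFne.choose, [])⟩
      choose! f hf1 hf2 using hex
      have ht : (Fp ×ˢ U).card ≤ N * ρ ^ 2 := by
        rw [Finset.card_product, hs]
        calc (s + 1) * U.card ≤ ρ * (N * ρ) :=
              Nat.mul_le_mul hsρ (hUcard.trans (Nat.mul_le_mul hPN.le hsρ))
          _ = N * ρ ^ 2 := by ring
      have hCpos : 0 < C.card := by
        refine lt_of_lt_of_le ?_ hC
        have : 0 < ρ := by omega
        positivity
      have hCne : C.Nonempty := Finset.card_pos.1 hCpos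
      have htne : (Fp ×ˢ U).Nonempty := by
        obtain ⟨c, hc⟩ := hCne
        exact ⟨f c, hf1 c hc⟩
      obtain ⟨y, hy, hycard⟩ := Finset.exists_le_card_fiber_of_mul_le_card_of_maps_to
        (s := C) (t := Fp ×ˢ U) (f := f) (n := N * (N * ρ ^ 2) ^ s) hf1 htne (by
          calc (Fp ×ˢ U).card * (N * (N * ρ ^ 2) ^ s) ≤ (N * ρ ^ 2) * (N * (N * ρ ^ 2) ^ s) :=
                Nat.mul_le_mul_right _ ht
            _ = N * (N * ρ ^ 2) ^ (s + 1) := by ring
            _ ≤ C.card := hC)
      have hyF : y.1 ∈ Fp := (Finset.mem_product.1 hy).1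
      have hyκ : κ y.1 = false := (Finset.mem_filter.1 hyF).2
      obtain ⟨P', κ', h1, h2, h3, h4⟩ := ih (Function.update κ y.1 true)
        (C.filter (fun x => f x = y)) (by
          have : (Finset.univ.filter (fun p => Function.update κ y.1 true p = false))
              = Fp.erase y.1 := by
            ext p
            simp only [Finset.mem_filter, Finset.mem_univ, true_and, Finset.mem_erase, hFp]
            by_cases hp : p = y.1
            · subst hp
              simp
            · simp [hp]
          rw [this, Finset.card_erase_of_mem hyF, hs]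
          rfl) (by
          intro c hc c' hc' p hp
          rw [Finset.mem_filter] at hc hc'
          by_cases hpy : p = y.1
          · subst hpy
            have e1 := hf2 c hc.1
            have e2 := hf2 c' hc'.1
            rw [hc.2] at e1
            rw [hc'.2] at e2
            rw [e1, e2]
          · rw [Function.update_of_ne hpy] at hp
            exact hagree c hc.1 c' hc'.1 p hp) hycard
      exact ⟨P', κ', h1.trans (Finset.filter_subset _ _), h2, h3, h4⟩

/-- Among sufficiently many rows of `ρ` words there are `N` rows that form a sunflower: they agree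
at the core positions, and at the other positions different rows have different words (also at
different positions). -/
theorem exists_sunflower {ι : Type*} [DecidableEq ι] (ρ N : ℕ) (C : Finset ι)
    (row : ι → Fin ρ → Word) (hC : N * (N * ρ ^ 2) ^ ρ ≤ C.card) :
    ∃ (P : Finset ι) (κ : Fin ρ → Bool), P ⊆ C ∧ P.card = N ∧
      (∀ c ∈ P, ∀ c' ∈ P, ∀ p, κ p = true → row c p = row c' p) ∧
      (∀ c ∈ P, ∀ c' ∈ P, c ≠ c' → ∀ p p', κ p = false → κ p' = false → row c p ≠ row c' p') := by
  rcases Nat.eq_zero_or_pos N with rfl | hN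
  · exact ⟨∅, fun _ => true, Finset.empty_subset _, rfl, by simp, by simp⟩
  · exact sunflower_aux ρ N hN row ρ (fun _ => false) C (by simp) (by simp) hC

end Pool.Agent.Lib.MP_634427_lc.Small
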