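import Pool.Agent.Lib.MP_634427_lc.Small.Defs
import Pool.Agent.Lib.MP_634427_lc.Small.Sunflower
import Pool.Agent.Lib.MP_634427_lc.Small.Coord

/-!
# Existence of deletion certificates
-/

namespace Pool.Agent.Lib.MP_634427_lc.Small

open Pool.Agent.Lib.MP_634427_lc

/-- The words of length `t`. -/
private def words (t : ℕ) : Finset Word :=
  (Finset.univ : Finset (Fin t → Bool)).map ⟨List.ofFn, List.ofFn_injective⟩

private theorem mem_words {t : ℕ} {D : Word} : D ∈ words t ↔ D.length = t := by
  unfold words
  rw [Finset.mem_map]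
  constructor
  · rintro ⟨f, -, rfl⟩
    exact List.length_ofFn
  · intro h
    subst h
    exact ⟨D.get, Finset.mem_univ _, List.ofFn_get D⟩

private theorem card_words (t : ℕ) : (words t).card = 2 ^ t := by
  unfold words
  rw [Finset.card_map, Finset.card_univ, Fintype.card_fun, Fintype.card_bool, Fintype.card_fin]

/-- The words of length at most `b`. -/
private def wordsLE (b : ℕ) : Finset Word := (Finset.range (b + 1)).biUnion words

private theorem mem_wordsLE {b : ℕ} {D : Word} : D ∈ wordsLE b ↔ D.length ≤ b := by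
  unfold wordsLE
  rw [Finset.mem_biUnion]
  constructor
  · rintro ⟨j, hj, h⟩
    rw [mem_words.1 h]
    exact Nat.lt_succ_iff.1 (Finset.mem_range.1 hj)
  · intro h
    exact ⟨D.length, Finset.mem_range.2 (Nat.lt_succ_of_le h), mem_words.2 rfl⟩

private theorem card_wordsLE (b : ℕ) : (wordsLE b).card ≤ 2 ^ (b + 1) := by
  unfold wordsLE
  refine Finset.card_biUnion_le.trans ?_
  have h1 : ∑ j ∈ Finset.range (b + 1), (words j).card = ∑ j ∈ Finset.range (b + 1), 2 ^ j :=
    Finset.sum_congr rfl fun j _ => card_words j
  rw [h1]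
  exact (Nat.geomSum_lt (m := 2) le_rfl (fun k hk => Finset.mem_range.1 hk)).le

private theorem eq_map_finRange {r : ℕ} (l : List Word) (hl : l.length = r) :
    l = (List.finRange r).map fun p => l.getD p.1 [] := by
  subst hl
  rw [← List.ofFn_eq_map]
  conv_lhs => rw [← List.ofFn_get l]
  congr 1
  funext p
  rw [List.getD_eq_getElem _ _ p.2]
  rfl

private theorem zip_eq {r : ℕ} (κ : Fin r → Bool) (l : List Word) (hl : l.length = r) :
    (List.ofFn κ).zip l = (List.finRange r).map fun p => (κ p, l.getD p.1 []) := by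
  have h1 : (List.ofFn κ).zip l =
      (List.ofFn κ).zip ((List.finRange r).map fun p => l.getD p.1 []) :=
    congrArg _ (eq_map_finRange l hl)
  rw [h1, List.ofFn_eq_map, List.zip_map']

/-- `core` in terms of positions. -/
private theorem core_eq {r : ℕ} (κ : Fin r → Bool) (l : List Word) (hl : l.length = r) :
    core (List.ofFn κ) l = ((List.finRange r).filter κ).map fun p => l.getD p.1 [] := by
  unfold core
  rw [zip_eq κ l hl, List.filter_map, List.map_map]
  rfl

private theorem petals_eq {r : ℕ} (κ : Fin r → Bool) (l : List Word) (hl : l.length = r) :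
    petals (List.ofFn κ) l =
      ((List.finRange r).filter fun p => !κ p).map fun p => l.getD p.1 [] := by
  unfold petals
  rw [zip_eq κ l hl, List.filter_map, List.map_map]
  rfl

private theorem del_pwd_iff (L : List (List Word)) :
    pwd L = true ↔ L.Pairwise fun l l' => disj l l' = true := by
  induction L with
  | nil => simp [pwd]
  | cons l t ih =>
    rw [pwd, Bool.and_eq_true, List.all_eq_true, List.pairwise_cons, ih]

private theorem length_filter_toList (P : Finset Word) (p : Word → Bool) :
    (P.toList.filter p).length = (P.filter fun D => p D = true).card := by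
  classical
  rw [← List.toFinset_card_of_nodup (P.nodup_toList.filter p), List.toFinset_filter,
    Finset.toList_toFinset]

/-- If the values `g D` consist of a word and a list of words of total number at most `b`, and `2 ^ t`
is large enough, then there are `M t + 2` words `D` of length `t` that certify a deletion. -/
theorem exists_del (g : Word → Word × List Word) (t b M : ℕ)
    (hb : ∀ D : Word, D.length = t → (g D).1.length + (g D).2.length ≤ b)
    (hcount : 2 ^ (b + 1) * (b + 1) * ((M * t + 2) * ((M * t + 2) * b ^ 2) ^ b) ≤ 2 ^ t) :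
    ∃ (Ds : List Word) (κ : List Bool) (i : ℕ), Ds.length = M * t + 2 ∧
      (∀ D ∈ Ds, D.length = t) ∧ κ.length ≤ b ∧ i < t ∧
      flower κ (Ds.map g) = true ∧ splits M i Ds = true := by
  classical
  set N : ℕ := M * t + 2 with hN
  -- pigeonhole
  have hmaps : ∀ D ∈ words t, ((g D).1, (g D).2.length) ∈ wordsLE b ×ˢ Finset.range (b + 1) := by
    intro D hD
    have h := hb D (mem_words.1 hD)
    rw [Finset.mem_product]
    refine ⟨mem_wordsLE.2 ?_, Finset.mem_range.2 ?_⟩
    · exact (Nat.le_add_right _ _).trans h
    · exact Nat.lt_succ_of_le ((Nat.le_add_left _ _).trans h)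
  have hcard : (wordsLE b ×ˢ Finset.range (b + 1)).card * (N * (N * b ^ 2) ^ b) ≤
      (words t).card := by
    rw [card_words, Finset.card_product, Finset.card_range]
    exact (Nat.mul_le_mul_right _ (Nat.mul_le_mul_right _ (card_wordsLE b))).trans hcount
  have hne : (wordsLE b ×ˢ Finset.range (b + 1)).Nonempty :=
    ⟨(([] : Word), 0), Finset.mem_product.2
      ⟨mem_wordsLE.2 (Nat.zero_le _), Finset.mem_range.2 (Nat.succ_pos _)⟩⟩
  obtain ⟨⟨e, r⟩, hy, hfib⟩ :=
    Finset.exists_le_card_fiber_of_mul_le_card_of_maps_to hmaps hne hcard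
  have hr : r ≤ b := Nat.lt_succ_iff.1 (Finset.mem_range.1 (Finset.mem_product.1 hy).2)
  set C : Finset Word := (words t).filter fun D => ((g D).1, (g D).2.length) = (e, r) with hC
  have hCmem : ∀ D ∈ C, D.length = t ∧ (g D).1 = e ∧ (g D).2.length = r := by
    intro D hD
    rw [hC, Finset.mem_filter, Prod.mk.injEq] at hD
    exact ⟨mem_words.1 hD.1, hD.2.1, hD.2.2⟩
  -- the sunflower
  have hNr : N * (N * r ^ 2) ^ r ≤ C.card := by
    refine le_trans (Nat.mul_le_mul_left N ?_) hfib
    have h1 : N * r ^ 2 ≤ N * b ^ 2 := Nat.mul_le_mul_left N (Nat.pow_le_pow_left hr 2)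
    refine (Nat.pow_le_pow_left h1 r).trans ?_
    rcases Nat.eq_zero_or_pos b with h0 | h0
    · have : r = b := by omega
      rw [this]
    · have h2 : 0 < N * b ^ 2 := Nat.mul_pos (by omega) (Nat.pow_pos h0)
      exact Nat.pow_le_pow_right h2 hr
  obtain ⟨P, κ, hPC, hPcard, hcore, hpetal⟩ :=
    exists_sunflower r N C (fun D p => (g D).2.getD p.1 []) hNr
  have hP : ∀ D ∈ P, D.length = t ∧ (g D).1 = e ∧ (g D).2.length = r :=
    fun D hD => hCmem D (hPC hD)
  obtain ⟨i, hi, hi1, hi0⟩ := exists_coord t M P (fun D hD => (hP D hD).1) hPcard.ge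
  refine ⟨P.toList, List.ofFn κ, i, ?_, ?_, ?_, hi, ?_, ?_⟩
  · rw [Finset.length_toList, hPcard]
  · intro D hD
    exact (hP D (Finset.mem_toList.1 hD)).1
  · rw [List.length_ofFn]
    exact hr
  · -- the flower
    have hhead : ∃ D₀ ∈ P, (P.toList.map g).headD ([], []) = g D₀ := by
      have hl : P.toList.length = N := by rw [Finset.length_toList, hPcard]
      rcases hq : P.toList with _ | ⟨D₀, rest⟩
      · rw [hq, List.length_nil] at hl
        omega
      · exact ⟨D₀, Finset.mem_toList.1 (hq ▸ List.mem_cons_self), rfl⟩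
    obtain ⟨D₀, hD₀, hh⟩ := hhead
    unfold flower
    rw [Bool.and_eq_true, hh]
    constructor
    · rw [List.all_eq_true]
      intro q hq
      obtain ⟨D, hD, rfl⟩ := List.mem_map.1 hq
      rw [Finset.mem_toList] at hD
      rw [Bool.and_eq_true, Bool.and_eq_true, decide_eq_true_iff, decide_eq_true_iff,
        decide_eq_true_iff, List.length_ofFn]
      refine ⟨(hP D hD).2.2, (hP D hD).2.1.trans (hP D₀ hD₀).2.1.symm, ?_⟩
      rw [core_eq κ _ (hP D hD).2.2, core_eq κ _ (hP D₀ hD₀).2.2]
      refine List.map_congr_left fun p hp => ?_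
      exact hcore D hD D₀ hD₀ p (List.mem_filter.1 hp).2
    · rw [del_pwd_iff, List.map_map, List.pairwise_map]
      refine List.Nodup.pairwise_of_forall_ne P.nodup_toList fun D hD D' hD' hne => ?_
      rw [Finset.mem_toList] at hD hD'
      unfold disj
      rw [List.all_eq_true]
      intro w hw
      rw [List.all_eq_true]
      intro w' hw'
      rw [Function.comp_apply, petals_eq κ _ (hP D hD).2.2] at hw
      rw [Function.comp_apply, petals_eq κ _ (hP D' hD').2.2] at hw'
      obtain ⟨p, hp, rfl⟩ := List.mem_map.1 hw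
      obtain ⟨p', hp', rfl⟩ := List.mem_map.1 hw'
      have h1 := (List.mem_filter.1 hp).2
      have h2 := (List.mem_filter.1 hp').2
      rw [Bool.not_eq_true'] at h1 h2 ⊢
      exact decide_eq_false (hpetal D hD D' hD' hne p p' h1 h2)
  · -- the splitting
    unfold splits
    rw [Bool.and_eq_true, decide_eq_true_iff, decide_eq_true_iff, length_filter_toList,
      length_filter_toList]
    refine ⟨hi1, ?_⟩
    have h1 : (P.filter fun D => (!D.getD i false) = true) =
        P.filter fun D => D.getD i false = false :=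
      Finset.filter_congr fun D _ => by rw [Bool.not_eq_true']
    rw [h1]
    exact hi0

end Pool.Agent.Lib.MP_634427_lc.Small
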