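import Pool.Agent.Lib.MP_634427_lc.Small.Rows

/-!
# Accepted certificates are correct
-/

namespace Pool.Agent.Lib.MP_634427_lc.Small

open Pool.Agent.Lib.MP_634427_lc

section

variable {Rel : Word × Word → Bool} {f : Word → Word × List Word} {M R m B : Word → ℕ}
  {A S : Set Word} {E : Word → List Bool → Prop}

/-- A deletion keeps a prefix of a witness in the list. -/
theorem del_sound (hA : ∀ x V D, inst x V D ∈ A ↔ ∃ w : Word, w.length = m x ∧
      Rel (x, w) = true ∧ ∃ i < V.length, D.getD i false = true ∧ V.getD i [] <+: w)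
    (hred : ∀ y, y ∈ A ↔ E (f y).1 (answerList S (f y).2))
    (hB : ∀ x V D, V.length ≤ 2 * R x + 1 → (∀ v ∈ V, v.length ≤ m x) → D.length = V.length →
      ∀ w ∈ (f (inst x V D)).2, w.length ≤ B x)
    (hM : ∀ x, {w ∈ S | w.length ≤ B x}.ncard ≤ M x) (x : Word) (V Ds : List Word)
    (κ : List Bool) (i : ℕ) (hV : V.length ≤ 2 * R x + 1) (hV' : ∀ v ∈ V, v.length ≤ m x)
    (hdel : delOK f (M x) x V Ds κ i = true)
    (hw : ∃ w : Word, w.length = m x ∧ Rel (x, w) = true ∧ ∃ v ∈ V, v <+: w) :
    ∃ w : Word, w.length = m x ∧ Rel (x, w) = true ∧ ∃ v ∈ V.take i ++ V.drop (i + 1), v <+: w := by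
  by_contra hcon
  unfold delOK at hdel
  rw [Bool.and_eq_true, Bool.and_eq_true, List.all_eq_true] at hdel
  obtain ⟨h1, h2, h3⟩ := hdel
  have hlen : ∀ D ∈ Ds, D.length = V.length := fun D hD => of_decide_eq_true (h1 D hD)
  -- an index whose word is a prefix of a witness is `i`
  have key : ∀ w : Word, w.length = m x → Rel (x, w) = true → ∀ j, j < V.length →
      V.getD j [] <+: w → j = i := by
    intro w hw1 hw2 j hj hp
    by_contra hne
    apply hcon
    refine ⟨w, hw1, hw2, V.getD j [], ?_, hp⟩
    rw [List.getD_eq_getElem _ _ hj, List.mem_append]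
    rcases Nat.lt_or_gt_of_ne hne with h | h
    · left
      rw [List.mem_take_iff_getElem]
      exact ⟨j, by omega, rfl⟩
    · right
      rw [List.mem_drop_iff_getElem]
      exact ⟨j - (i + 1), by omega, by congr 1; omega⟩
  obtain ⟨w, hw1, hw2, v, hv, hp⟩ := hw
  obtain ⟨j, hj, rfl⟩ := List.getElem_of_mem hv
  rw [← List.getD_eq_getElem _ [] hj] at hp
  have hji := key w hw1 hw2 j hj hp
  rw [hji] at hp hj
  refine not_forall_of_flower S (B x) (M x) (hM x) (fun D => f (inst x V D)) E Ds κ i
    (fun D hD => hB x V D hV hV' (hlen D hD)) h2 h3 fun D hD => ?_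
  rw [← hred, hA]
  constructor
  · rintro ⟨w', hw1', hw2', j', hj', hD', hp'⟩
    rw [← key w' hw1' hw2' j' hj' hp']
    exact hD'
  · intro hDi
    exact ⟨w, hw1, hw2, i, hj, hDi, hp⟩

lemma sound_ext_length (V : List Word) : (ext V).length = 2 * V.length := by
  unfold ext
  induction V with
  | nil => rfl
  | cons v V ih =>
    rw [List.flatMap_cons, List.length_append, ih]
    simp only [List.length_cons, List.length_nil]
    omega

/-- If a certificate is accepted, then there is no witness. -/
theorem check_sound (hA : ∀ x V D, inst x V D ∈ A ↔ ∃ w : Word, w.length = m x ∧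
      Rel (x, w) = true ∧ ∃ i < V.length, D.getD i false = true ∧ V.getD i [] <+: w)
    (hred : ∀ y, y ∈ A ↔ E (f y).1 (answerList S (f y).2))
    (hB : ∀ x V D, V.length ≤ 2 * R x + 1 → (∀ v ∈ V, v.length ≤ m x) → D.length = V.length →
      ∀ w ∈ (f (inst x V D)).2, w.length ≤ B x)
    (hM : ∀ x, {w ∈ S | w.length ≤ B x}.ncard ≤ M x) (x : Word) (cs : List Step)
    (h : check Rel f M R m (x, cs) = true) : ¬ ∃ w : Word, w.length = m x ∧ Rel (x, w) = true := by
  rintro ⟨w₀, hw₀, hR₀⟩
  have inv : ∀ cs : List Step, (run f M R m x cs).length ≤ 2 * R x + 1 ∧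
      (∀ v ∈ run f M R m x cs, v.length ≤ m x) ∧
      ∃ w : Word, w.length = m x ∧ Rel (x, w) = true ∧ ∃ v ∈ run f M R m x cs, v <+: w := by
    intro cs
    induction cs with
    | nil =>
      refine ⟨by change 1 ≤ _; omega, fun v hv => ?_, w₀, hw₀, hR₀, [], ?_, List.nil_prefix⟩
      · change v ∈ [[]] at hv
        rw [List.mem_singleton] at hv
        rw [hv]
        exact Nat.zero_le _
      · change ([] : Word) ∈ [[]]
        exact List.mem_singleton.2 rfl
    | cons s cs ih =>
      obtain ⟨h1, h2, h3⟩ := ih
      cases s with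
      | none =>
        by_cases hc : (decide ((run f M R m x cs).length ≤ R x) &&
            (run f M R m x cs).all fun v => decide (v.length < m x)) = true
        · have hrun : run f M R m x (none :: cs) = ext (run f M R m x cs) := if_pos hc
          rw [Bool.and_eq_true, List.all_eq_true] at hc
          have hc1 := of_decide_eq_true hc.1
          rw [hrun]
          refine ⟨by rw [sound_ext_length]; omega, fun v hv => ?_, ?_⟩
          · unfold ext at hv
            rw [List.mem_flatMap] at hv
            obtain ⟨u, hu, hv⟩ := hv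
            have hlt := of_decide_eq_true (hc.2 u hu)
            simp only [List.mem_cons, List.not_mem_nil, or_false] at hv
            rcases hv with rfl | rfl <;> simp <;> omega
          · obtain ⟨w, hw, hRw, v, hv, hp⟩ := h3
            have hlt := of_decide_eq_true (hc.2 v hv)
            obtain ⟨t, rfl⟩ := hp
            cases t with
            | nil =>
              rw [List.append_nil] at hw
              omega
            | cons b t =>
              refine ⟨v ++ b :: t, hw, hRw, v ++ [b], ?_, ⟨t, by simp⟩⟩
              unfold ext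
              rw [List.mem_flatMap]
              refine ⟨v, hv, ?_⟩
              cases b <;> simp
        · have hrun : run f M R m x (none :: cs) = run f M R m x cs := if_neg hc
          rw [hrun]
          exact ⟨h1, h2, h3⟩
      | some q =>
        by_cases hc : delOK f (M x) x (run f M R m x cs) q.1 q.2.1 q.2.2 = true
        · have hrun : run f M R m x (some q :: cs) =
              (run f M R m x cs).take q.2.2 ++ (run f M R m x cs).drop (q.2.2 + 1) := if_pos hc
          rw [hrun]
          refine ⟨?_, fun v hv => ?_, ?_⟩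
          · rw [List.length_append, List.length_take, List.length_drop]
            omega
          · rw [List.mem_append] at hv
            rcases hv with hv | hv
            · exact h2 v (List.mem_of_mem_take hv)
            · exact h2 v (List.mem_of_mem_drop hv)
          · exact del_sound hA hred hB hM x _ q.1 q.2.1 q.2.2 h1 h2 hc h3
        · have hrun : run f M R m x (some q :: cs) = run f M R m x cs := if_neg hc
          rw [hrun]
          exact ⟨h1, h2, h3⟩
  obtain ⟨_, h2, w, hw, hRw, v, hv, hp⟩ := inv cs
  unfold check at h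
  rw [List.all_eq_true] at h
  have h4 := h v hv
  rw [Bool.and_eq_true] at h4
  have h5 : m x ≤ v.length := of_decide_eq_true h4.1
  have h6 : v.length = m x := le_antisymm (h2 v hv) h5
  have h7 : v = w := hp.eq_of_length (by rw [h6, hw])
  have h8 := h4.2
  rw [Bool.not_eq_true', Bool.and_eq_false_iff] at h8
  rcases h8 with h8 | h8
  · exact of_decide_eq_false h8 h6
  · rw [h7] at h8
    change Rel (x, w) = false at h8
    rw [hRw] at h8
    exact Bool.noConfusion h8

end

end Pool.Agent.Lib.MP_634427_lc.Small
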