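import Pool.Agent.Lib.MP_634427_lc.Small.Defs

/-!
# The check of a certificate is in polynomial time
-/

namespace Pool.Agent.Lib.MP_634427_lc.Small

open Pool.Agent.Lib.MP_634427_lc

private lemma zip_eq {α β : Type} (l : List α) (l' : List β) (d : α) (e : β) :
    (List.range (min l.length l'.length)).map (fun i => (l.getD i d, l'.getD i e)) = l.zip l' := by
  refine List.ext_getElem ?_ fun i h₁ h₂ => ?_
  · rw [List.length_map, List.length_range, List.length_zip]
  · rw [List.length_zip] at h₂
    have h3 : i < l.length := lt_of_lt_of_le h₂ (min_le_left _ _)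
    have h4 : i < l'.length := lt_of_lt_of_le h₂ (min_le_right _ _)
    rw [List.getElem_map, List.getElem_range, List.getElem_zip, List.getD_eq_getElem _ _ h3,
      List.getD_eq_getElem _ _ h4]

private lemma pt_zip {γ α β : Type} [Enc γ] [Enc α] [Enc β] {l : γ → List α} {l' : γ → List β}
    (d : α) (e : β) (hl : PT l) (hl' : PT l') : PT fun c => (l c).zip (l' c) :=
  (PT.map (f := fun c i => ((l c).getD i d, (l' c).getD i e))
    (PT.range (PT.min (PT.length hl) (PT.length hl')))
    (PT.pair (PT.getLD PT.snd (hl.comp PT.fst) (PT.const d))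
      (PT.getLD PT.snd (hl'.comp PT.fst) (PT.const e)))).of_eq fun c => zip_eq _ _ d e

lemma pt_core {γ : Type} [Enc γ] {κ : γ → List Bool} {l : γ → List Word} (hκ : PT κ) (hl : PT l) :
    PT fun c => core (κ c) (l c) :=
  PT.map (f := fun _ q => Prod.snd q) (PT.filter (p := fun _ q => q.1) (pt_zip false [] hκ hl)
    (PT.fst' PT.snd)) (PT.snd' PT.snd)

lemma pt_petals {γ : Type} [Enc γ] {κ : γ → List Bool} {l : γ → List Word} (hκ : PT κ)
    (hl : PT l) : PT fun c => petals (κ c) (l c) :=
  PT.map (f := fun _ q => Prod.snd q) (PT.filter (p := fun _ q => !q.1) (pt_zip false [] hκ hl)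
    (PT.not (PT.fst' PT.snd))) (PT.snd' PT.snd)

private lemma pt_disj {γ : Type} [Enc γ] {l l' : γ → List Word} (hl : PT l) (hl' : PT l') :
    PT fun c => disj (l c) (l' c) :=
  PT.all (p := fun c w => (l' c).all fun w' => !decide (w = w')) hl
    (PT.all (p := fun (q : γ × Word) w' => !decide (q.2 = w')) (hl'.comp PT.fst)
      (PT.not (PT.eqWord (PT.snd' PT.fst) PT.snd)))

private lemma pwd_eq (L : List (List Word)) :
    PT.lrec true (fun l t r => t.all (fun l' => disj l l') && r) L = pwd L := by
  induction L with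
  | nil => rfl
  | cons l t ih => rw [PT.lrec, pwd, ih]

lemma pt_pwd {γ : Type} [Enc γ] {L : γ → List (List Word)} (hL : PT L) :
    PT fun c => pwd (L c) := by
  have h := PT.listRec (s := fun _ : γ => true)
    (f := fun _ l t r => t.all (fun l' => disj l l') && r) hL (PT.const true)
    (PT.and (PT.all (p := fun (q : γ × List Word × List (List Word) × Bool) l' =>
        disj q.2.1 l') (PT.fst' (PT.snd' PT.snd))
      (pt_disj (PT.fst' (PT.snd' PT.fst)) PT.snd)) (PT.snd' (PT.snd' PT.snd)))
    ⟨0, fun c l' _ => sz_bool_le _⟩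
  exact h.of_eq fun c => pwd_eq _

lemma pt_flower {γ : Type} [Enc γ] {κ : γ → List Bool} {r : γ → List (Word × List Word)}
    (hκ : PT κ) (hr : PT r) : PT fun c => flower (κ c) (r c) := by
  have hh : PT fun c => (r c).headD ([], []) := PT.headD hr (PT.const _)
  refine PT.and (PT.all (p := fun c q => decide (q.2.length = (κ c).length) &&
    (decide (q.1 = ((r c).headD ([], [])).1) &&
      decide (core (κ c) q.2 = core (κ c) ((r c).headD ([], [])).2))) hr ?_) ?_
  · refine PT.and (PT.eqNat (PT.length (PT.snd' PT.snd)) (PT.length (hκ.comp PT.fst)))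
      (PT.and (PT.eqWord (PT.fst' PT.snd) (PT.fst' (hh.comp PT.fst))) ?_)
    exact PT.eqDec (enc_list_injective enc_word_injective)
      (pt_core (hκ.comp PT.fst) (PT.snd' PT.snd)) (pt_core (hκ.comp PT.fst)
        (PT.snd' (hh.comp PT.fst)))
  · exact pt_pwd (PT.map (f := fun c q => petals (κ c) q.2) hr
      (pt_petals (hκ.comp PT.fst) (PT.snd' PT.snd)))

lemma pt_splits {γ : Type} [Enc γ] {M i : γ → ℕ} {Ds : γ → List Word} (hM : PT M) (hi : PT i)
    (hD : PT Ds) : PT fun c => splits (M c) (i c) (Ds c) := by
  have h1 : PT fun q : γ × Word => q.2.getD (i q.1) false :=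
    PT.getLD (hi.comp PT.fst) PT.snd (PT.const false)
  exact PT.and (PT.lt hM (PT.length (PT.filter (p := fun c D => D.getD (i c) false) hD h1)))
    (PT.lt hM (PT.length (PT.filter (p := fun c D => !D.getD (i c) false) hD (PT.not h1))))

private lemma pt_inst {γ : Type} [Enc γ] {x D : γ → Word} {V : γ → List Word} (hx : PT x)
    (hV : PT V) (hD : PT D) : PT fun c => inst (x c) (V c) (D c) := by
  have he : PT (fun a : Word × (List Word × Word) => (enc a : BT)) := ⟨_, .id, fun _ => rfl⟩
  exact PT.code (he.comp (PT.pair hx (PT.pair hV hD)))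

lemma pt_delOK {f : Word → Word × List Word} (hf : PT f) {γ : Type} [Enc γ] {M i : γ → ℕ}
    {x : γ → Word} {V Ds : γ → List Word} {κ : γ → List Bool} (hM : PT M) (hx : PT x) (hV : PT V)
    (hD : PT Ds) (hκ : PT κ) (hi : PT i) :
    PT fun c => delOK f (M c) (x c) (V c) (Ds c) (κ c) (i c) := by
  refine PT.and (PT.all (p := fun c D => decide (D.length = (V c).length)) hD
    (PT.eqNat (PT.length PT.snd) (PT.length (hV.comp PT.fst)))) (PT.and ?_ (pt_splits hM hi hD))
  exact pt_flower hκ (PT.map (f := fun c D => f (inst (x c) (V c) D)) hD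
    (hf.comp (pt_inst (hx.comp PT.fst) (hV.comp PT.fst) PT.snd)))

private lemma length_ext (V : List Word) : (ext V).length = 2 * V.length := by
  induction V with
  | nil => rfl
  | cons v V ih =>
    have h : ext (v :: V) = [v ++ [false], v ++ [true]] ++ ext V := rfl
    rw [h, List.length_append, ih]
    simp only [List.length_cons, List.length_nil]
    omega

/-- The list never has more than `2 R x + 1` members, of length at most `m x`. -/
lemma run_bound (f : Word → Word × List Word) (M R m : Word → ℕ) (x : Word) (cs : List Step) :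
    (run f M R m x cs).length ≤ 2 * R x + 1 ∧ ∀ v ∈ run f M R m x cs, v.length ≤ m x := by
  induction cs with
  | nil =>
    refine ⟨?_, ?_⟩
    · show 1 ≤ _
      omega
    · intro v hv
      have h1 : v ∈ [([] : Word)] := hv
      rw [List.mem_singleton] at h1
      rw [h1]
      exact Nat.zero_le _
  | cons s cs ih =>
    have h0 : run f M R m x (s :: cs) = stp f M R m x s (run f M R m x cs) := rfl
    rw [h0]
    generalize run f M R m x cs = V at ih
    rcases s with _ | q
    · rw [stp]
      split_ifs with h
      · rw [Bool.and_eq_true, decide_eq_true_iff, List.all_eq_true] at h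
        refine ⟨?_, ?_⟩
        · rw [length_ext]
          omega
        · intro v hv
          obtain ⟨w, hw, h1⟩ := List.mem_flatMap.1 hv
          have h2 := of_decide_eq_true (h.2 w hw)
          simp only [List.mem_cons, List.not_mem_nil, or_false] at h1
          rcases h1 with rfl | rfl
          · rw [List.length_append, List.length_singleton]
            exact h2
          · rw [List.length_append, List.length_singleton]
            exact h2
      · exact ih
    · rw [stp]
      split_ifs with h
      · refine ⟨?_, ?_⟩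
        · rw [List.length_append, List.length_take, List.length_drop]
          have h1 := ih.1
          omega
        · intro v hv
          rcases List.mem_append.1 hv with h1 | h1
          · exact ih.2 v (List.mem_of_mem_take h1)
          · exact ih.2 v (List.mem_of_mem_drop h1)
      · exact ih

private lemma pt_bite {γ α : Type} [Enc γ] [Enc α] {c : γ → Bool} {f g : γ → α} (hc : PT c)
    (hf : PT f) (hg : PT g) : PT fun a => if c a then f a else g a :=
  (PT.cond hc hf hg).of_eq fun a => by cases c a <;> rfl

private lemma pt_stp {f : Word → Word × List Word} {M R m : Word → ℕ} (hf : PT f) (hM : PT M)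
    (hR : PT R) (hm : PT m) {γ : Type} [Enc γ] {x : γ → Word} {s : γ → Step} {V : γ → List Word}
    (hx : PT x) (hs : PT s) (hV : PT V) : PT fun c => stp f M R m (x c) (s c) (V c) := by
  have h1 : PT fun c => if decide ((V c).length ≤ R (x c)) &&
      (V c).all (fun v => decide (v.length < m (x c))) then ext (V c) else V c := by
    refine pt_bite (PT.and (PT.le (PT.length hV) (hR.comp hx))
      (PT.all (p := fun c v => decide (v.length < m (x c))) hV
        (PT.lt (PT.length PT.snd) (hm.comp (hx.comp PT.fst))))) ?_ hV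
    exact PT.flatMap (f := fun _ c => [c ++ [false], c ++ [true]]) hV
      (PT.cons (PT.append PT.snd (PT.const [false])) (PT.cons (PT.append PT.snd
        (PT.const [true])) (PT.const [])))
  have h2 : PT fun p : γ × (List Word × (List Bool × ℕ)) =>
      if delOK f (M (x p.1)) (x p.1) (V p.1) p.2.1 p.2.2.1 p.2.2.2 then
        (V p.1).take p.2.2.2 ++ (V p.1).drop (p.2.2.2 + 1) else V p.1 := by
    have hV' : PT fun p : γ × (List Word × (List Bool × ℕ)) => V p.1 := hV.comp PT.fst
    have hx' : PT fun p : γ × (List Word × (List Bool × ℕ)) => x p.1 := hx.comp PT.fst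
    have hi : PT fun p : γ × (List Word × (List Bool × ℕ)) => p.2.2.2 :=
      PT.snd' (PT.snd' PT.snd)
    exact pt_bite (pt_delOK hf (hM.comp hx') hx' hV' (PT.fst' PT.snd) (PT.fst' (PT.snd' PT.snd))
      hi) (PT.append (PT.take hi hV') (PT.drop (PT.succ hi) hV')) hV'
  have h3 := PT.casesOption (g := fun c q => if delOK f (M (x c)) (x c) (V c) q.1 q.2.1 q.2.2 then
        (V c).take q.2.2 ++ (V c).drop (q.2.2 + 1) else V c) hs h1 h2
  refine h3.of_eq fun c => ?_
  rcases s c with _ | q <;> rfl

private lemma sz_list_le {V : List Word} {m : ℕ} (h : ∀ v ∈ V, v.length ≤ m) :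
    sz V ≤ V.length * (2 * m + 1) := by
  induction V with
  | nil => simp
  | cons v V ih =>
    have h1 := ih fun w hw => h w (List.mem_cons_of_mem _ hw)
    have h2 := sz_word_le v
    have h3 := h v List.mem_cons_self
    rw [sz_cons, List.length_cons, Nat.succ_mul]
    omega

theorem pt_check {Rel : Word × Word → Bool} {f : Word → Word × List Word} {M R m : Word → ℕ}
    (hRel : PT Rel) (hf : PT f) (hM : PT M) (hR : PT R) (hm : PT m) :
    PT (check Rel f M R m) := by
  have hrun : PT fun p : Word × List Step => run f M R m p.1 p.2 := by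
    refine PT.foldr (f := fun (p : Word × List Step) => stp f M R m p.1) PT.snd (PT.const [[]])
      (pt_stp hf hM hR hm (PT.fst' PT.fst) (PT.fst' PT.snd) (PT.snd' PT.snd)) ?_
    obtain ⟨a, ha⟩ := hR.size_le
    obtain ⟨b, hb⟩ := hm.size_le
    obtain ⟨e, he⟩ := PB.mul (F := fun n => 2 * (n + 2) ^ a + 1) (G := fun n => 2 * (n + 2) ^ b + 1)
      (PB.add (PB.mul (PB.const 2) ⟨a, fun n => le_rfl⟩) (PB.const 1))
      (PB.add (PB.mul (PB.const 2) ⟨b, fun n => le_rfl⟩) (PB.const 1))
    refine ⟨e, fun c l' _ => le_trans ?_ (he (sz c))⟩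
    obtain ⟨h1, h2⟩ := run_bound f M R m c.1 l'
    have h3 := sz_list_le h2
    have h4 := ha c.1
    have h5 := hb c.1
    rw [sz_nat] at h4 h5
    have h6 : sz c.1 ≤ sz c := by
      rw [sz_prod]
      omega
    have h7 : (sz c.1 + 2) ^ a ≤ (sz c + 2) ^ a := Nat.pow_le_pow_left (by omega) a
    have h8 : (sz c.1 + 2) ^ b ≤ (sz c + 2) ^ b := Nat.pow_le_pow_left (by omega) b
    refine h3.trans (Nat.mul_le_mul ?_ ?_)
    · exact h1.trans (by omega)
    · omega
  refine PT.all (p := fun (p : Word × List Step) v => decide (m p.1 ≤ v.length) &&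
    !(decide (v.length = m p.1) && Rel (p.1, v))) hrun ?_
  have hm' : PT fun q : (Word × List Step) × Word => m q.1.1 := hm.comp (PT.fst' PT.fst)
  exact PT.and (PT.le hm' (PT.length PT.snd)) (PT.not (PT.and (PT.eqNat (PT.length PT.snd) hm')
    (hRel.comp (PT.pair (PT.fst' PT.fst) PT.snd))))

end Pool.Agent.Lib.MP_634427_lc.Small
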