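import Pool.Agent.Lib.MP_634427_lc.Small.Arith
import Pool.Agent.Lib.MP_634427_lc.Small.Complete
import Pool.Agent.Lib.MP_634427_lc.Small.Dec
import Pool.Agent.Lib.MP_634427_lc.Small.Del
import Pool.Agent.Lib.MP_634427_lc.Small.Sound
import Pool.Agent.Lib.MP_634427_lc.Small.StepPT

/-!
# Small reductions to a sparse set: NP = coNP
-/

namespace Pool.Agent.Lib.MP_634427_lc.Small

open Pool.Agent.Lib.MP_634427_lc

/-- The verifier of the questions about lists of prefixes. -/
def qver (Rel : Word × Word → Bool) (p : (Word × (List Word × Word)) × Word) : Bool :=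
  Rel (p.1.1, p.2) && (List.range p.1.2.1.length).any fun i =>
    p.1.2.2.getD i false &&
      decide (p.1.2.1.getD i [] = p.2.take (p.1.2.1.getD i []).length)

lemma pt_qver {Rel : Word × Word → Bool} (hRel : PT Rel) : PT (qver Rel) := by
  refine PT.and (hRel.comp (PT.pair (PT.fst' PT.fst) PT.snd)) ?_
  have h1 : PT fun q : ((Word × (List Word × Word)) × Word) × ℕ =>
      q.1.1.2.1.getD q.2 ([] : Word) :=
    PT.getLD PT.snd (PT.fst' (PT.snd' (PT.fst' PT.fst))) (PT.const [])
  exact PT.any (p := fun (p : (Word × (List Word × Word)) × Word) i => p.1.2.2.getD i false &&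
      decide (p.1.2.1.getD i [] = p.2.take (p.1.2.1.getD i []).length))
    (PT.range (PT.length (PT.fst' (PT.snd' PT.fst))))
    (PT.and (PT.getLD PT.snd (PT.snd' (PT.snd' (PT.fst' PT.fst))) (PT.const false))
      (PT.eqWord h1 (PT.take (PT.length h1) (PT.snd' PT.fst))))

lemma qver_iff (Rel : Word × Word → Bool) (x : Word) (V : List Word) (D u : Word) :
    qver Rel ((x, (V, D)), u) = true ↔ Rel (x, u) = true ∧
      ∃ i < V.length, D.getD i false = true ∧ V.getD i [] <+: u := by
  simp only [qver, Bool.and_eq_true, List.any_eq_true, List.mem_range, decide_eq_true_eq,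
    List.prefix_iff_eq_take]

lemma sz_list_le (V : List Word) (B : ℕ) (h : ∀ v ∈ V, v.length ≤ B) :
    sz V ≤ V.length * (2 * B + 1) := by
  induction V with
  | nil => simp
  | cons v V ih =>
    have h1 := ih fun w hw => h w (List.mem_cons_of_mem _ hw)
    have h2 := sz_word_le v
    have h3 := h v List.mem_cons_self
    simp only [sz_cons, List.length_cons]
    calc sz v + sz V + 1 ≤ (2 * B + 1) + V.length * (2 * B + 1) := by omega
      _ = (V.length + 1) * (2 * B + 1) := by ring

lemma length_inst_le (x : Word) (V : List Word) (D : Word) (B : ℕ) (hV : 1 ≤ V.length)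
    (h : ∀ v ∈ V, v.length ≤ B) (hD : D.length = V.length) :
    (inst x V D).length + 1 ≤ 21 * V.length * (x.length + B + 1) := by
  have h1 := sz_list_le V B h
  have h2 := sz_word_le D
  have h3 := sz_word_le x
  have h4 : (inst x V D).length = 2 * (sz x + (sz V + sz D + 1) + 1) + 1 := length_code _
  rw [h4]
  nlinarith

/-- If a sparse set is hard for NP under small reductions, then NP = coNP. -/
theorem coNP_of_small (k : ℕ) (S : Set Word) (hS : Sparse S)
    (hard : ∀ A : Set Word, InNP A → SmallReducible k A S) (L : Set Word) (hL : InNP L) :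
    InNP Lᶜ := by
  obtain ⟨Rel, m, hRel, hm, hLR⟩ := exists_rel hL
  obtain ⟨A, hA, hAc⟩ := exists_np_code (qver Rel) (fun a => m a.1) (pt_qver hRel)
    (hm.comp PT.fst)
  obtain ⟨f, E, c, hf, hfb, hfE⟩ := hard A hA
  obtain ⟨cS, hcS⟩ := hS
  obtain ⟨cf, hcf⟩ := hf.size_le
  have hA' : ∀ x V D, inst x V D ∈ A ↔ ∃ w : Word, w.length = m x ∧
      Rel (x, w) = true ∧ ∃ i < V.length, D.getD i false = true ∧ V.getD i [] <+: w := by
    intro x V D
    unfold inst
    rw [hAc]
    simp only [qver_iff]
  -- the parameters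
  obtain ⟨d, hd⟩ : PB fun R => (((42 * (2 * R + 1) * R + 2) ^ cf) ^ cS + cS) * (2 * R + 1) + 2 :=
    PB.add (PB.mul (PB.add (PB.pow (PB.pow (PB.add (PB.mul (PB.mul (PB.const 42)
      (PB.add (PB.mul (PB.const 2) PB.id) (PB.const 1))) PB.id) (PB.const 2)) cf) cS)
      (PB.const cS)) (PB.add (PB.mul (PB.const 2) PB.id) (PB.const 1))) (PB.const 2)
  obtain ⟨K, hK, hKc⟩ := exists_const k c d
  let n : Word → ℕ := fun x => x.length + m x + 1
  let R : Word → ℕ := fun x => K * n x ^ (2 * k + 1)
  let B : Word → ℕ := fun x => (42 * (2 * R x + 1) * n x + 2) ^ cf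
  let M : Word → ℕ := fun x => B x ^ cS + cS
  let t' : Word → ℕ := fun x => 2 * R x + 1
  let Z : Word → ℕ := fun x => (M x * t' x + 2) * (2 * t' x + 1) + 2 * (c * (21 * t' x * n x) ^ k)
    + t' x + 5
  have hn : PT n := PT.succ (PT.add (PT.length PT.id) hm)
  have hR : PT R := PT.mul (PT.const K) (PT.pow hn _)
  have hB : PT B := PT.pow (PT.add (PT.mul (PT.mul (PT.const 42)
    (PT.add (PT.mul (PT.const 2) hR) (PT.const 1))) hn) (PT.const 2)) cf
  have hM : PT M := PT.add (PT.pow hB cS) (PT.const cS)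
  have ht' : PT t' := PT.add (PT.mul (PT.const 2) hR) (PT.const 1)
  have hZ : PT Z := PT.add (PT.add (PT.add (PT.mul (PT.add (PT.mul hM ht') (PT.const 2))
    (PT.add (PT.mul (PT.const 2) ht') (PT.const 1))) (PT.mul (PT.const 2) (PT.mul (PT.const c)
      (PT.pow (PT.mul (PT.mul (PT.const 21) ht') hn) k)))) ht') (PT.const 5)
  have hn1 : ∀ x, 1 ≤ n x := fun x => by simp only [n]; omega
  have hnR : ∀ x, n x ≤ R x := by
    intro x
    calc n x = 1 * n x ^ 1 := by simp
      _ ≤ K * n x ^ (2 * k + 1) := Nat.mul_le_mul hK (Nat.pow_le_pow_right (hn1 x) (by omega))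
  have hR1 : ∀ x, 1 ≤ R x := fun x => (hn1 x).trans (hnR x)
  -- the length of the words
  have hBw : ∀ x V D, V.length ≤ 2 * R x + 1 → (∀ v ∈ V, v.length ≤ m x) →
      D.length = V.length → ∀ w ∈ (f (inst x V D)).2, w.length ≤ B x := by
    intro x V D hV hv hD w hw
    have h1 : w.length ≤ sz (f (inst x V D)) := by
      have h2 := length_le_sz w
      have h3 := sz_mem_le hw
      rw [sz_prod]
      omega
    refine h1.trans ((hcf _).trans (Nat.pow_le_pow_left ?_ cf))
    have h4 := sz_word_le (inst x V D)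
    rcases Nat.eq_zero_or_pos V.length with h0 | h0
    · have hV0 : V = [] := List.length_eq_zero_iff.1 h0
      have hD0 : D = [] := List.length_eq_zero_iff.1 (hD.trans h0)
      subst hV0; subst hD0
      have h5 : (inst x [] []).length = 2 * (sz x + (sz ([] : List Word) + sz ([] : Word) + 1) + 1)
        + 1 := length_code _
      have h6 := sz_word_le x
      simp only [sz_lnil] at h5
      have h7 : x.length + 1 ≤ n x := by simp only [n]; omega
      have h8 : n x ≤ (2 * R x + 1) * n x := Nat.le_mul_of_pos_left _ (by omega)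
      nlinarith
    · have h5 := length_inst_le x V D (m x) h0 hv hD
      have h6 : 21 * V.length * (x.length + m x + 1) ≤ 21 * (2 * R x + 1) * n x :=
        Nat.mul_le_mul (Nat.mul_le_mul_left _ hV) le_rfl
      have h7 : 42 * (2 * R x + 1) * n x = 2 * (21 * (2 * R x + 1) * n x) := by ring
      omega
  -- deletions exist
  have hdel : ∀ x V, R x < V.length → V.length ≤ 2 * R x + 1 → (∀ v ∈ V, v.length ≤ m x) →
      ∃ (Ds : List Word) (κ : List Bool) (i : ℕ), i < V.length ∧ delOK f (M x) x V Ds κ i = true ∧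
        sz (Ds, (κ, i)) ≤ Z x := by
    intro x V h1 h2 h3
    obtain ⟨X, hX⟩ : ∃ X, X = c * (21 * V.length * n x) ^ k := ⟨_, rfl⟩
    let b : ℕ := Nat.findGreatest (fun b => b ^ (k + 1) ≤ X) X
    have hb : b ^ (k + 1) ≤ X :=
      Nat.findGreatest_spec (P := fun b => b ^ (k + 1) ≤ X) (m := 0) (Nat.zero_le _) (by simp)
    have hbX : b ≤ X := Nat.findGreatest_le _
    have hbD : ∀ D : Word, D.length = V.length →
        (f (inst x V D)).1.length + (f (inst x V D)).2.length ≤ b := by
      intro D hD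
      have h4 := hfb (inst x V D)
      have h5 := length_inst_le x V D (m x) (by omega) h3 hD
      have h6 : ((f (inst x V D)).1.length + (f (inst x V D)).2.length) ^ (k + 1) ≤ X := by
        rw [hX]
        exact h4.trans (Nat.mul_le_mul_left _ (Nat.pow_le_pow_left h5 k))
      exact Nat.le_findGreatest ((Nat.le_self_pow (by omega) _).trans h6) h6
    have hN : M x * V.length + 2 ≤ (R x + 2) ^ d := by
      refine le_trans ?_ (hd (R x))
      refine Nat.add_le_add (Nat.mul_le_mul (Nat.add_le_add (Nat.pow_le_pow_left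
        (Nat.pow_le_pow_left (Nat.add_le_add (Nat.mul_le_mul_left _ (hnR x)) le_rfl) cf) cS)
        le_rfl) h2) le_rfl
    have hcount := hKc (n x) (R x) V.length b (M x * V.length + 2) (hn1 x) rfl h1 h2
      (hX ▸ hb) hN
    obtain ⟨Ds, κ, i, hl, hD, hκ, hi, hfl, hsp⟩ :=
      exists_del (fun D => f (inst x V D)) V.length b (M x) hbD hcount
    refine ⟨Ds, κ, i, hi, ?_, ?_⟩
    · simp only [delOK, hfl, hsp, Bool.and_true, List.all_eq_true, decide_eq_true_eq]
      exact hD
    · have h4 := sz_list_le Ds V.length fun v hv => (hD v hv).le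
      have h5 : sz κ ≤ 2 * κ.length := sz_word_le κ
      have h6 : V.length ≤ t' x := h2
      have h7 : Ds.length * (2 * V.length + 1) ≤ (M x * t' x + 2) * (2 * t' x + 1) := by
        rw [hl]
        exact Nat.mul_le_mul (Nat.add_le_add (Nat.mul_le_mul_left _ h6) le_rfl) (by omega)
      have h8 : X ≤ c * (21 * t' x * n x) ^ k := by
        rw [hX]
        exact Nat.mul_le_mul_left _ (Nat.pow_le_pow_left
          (Nat.mul_le_mul_right _ (Nat.mul_le_mul_left _ h6)) k)
      simp only [sz_pair, sz_nat, Z]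
      omega
  have hW : PT fun x => m x * ((R x + 2) * (Z x + 2)) :=
    PT.mul hm (PT.mul (PT.add hR (PT.const 2)) (PT.add hZ (PT.const 2)))
  obtain ⟨e, he⟩ := hW.size_le
  have hdec : HasDec (List Step) := hasDec_list (hasDec_option (hasDec_prod
    (hasDec_list (hasDec_list hasDec_bool)) (hasDec_prod (hasDec_list hasDec_bool) hasDec_nat)))
  refine inNP_of_cert hdec (check Rel f M R m) (pt_check hRel hf hM hR hm) Lᶜ ?_ e ?_
  · intro x cs h
    rw [Set.mem_compl_iff, hLR]
    exact check_sound hA' hfE hBw (fun x => hcS (B x)) x cs h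
  · intro x hx
    rw [Set.mem_compl_iff, hLR] at hx
    obtain ⟨cs, h1, h2⟩ := check_complete Rel f M R m Z hR1 hdel x hx
    have h3 := he x
    rw [sz_nat] at h3
    exact ⟨cs, h1.trans h3, h2⟩

end Pool.Agent.Lib.MP_634427_lc.Small
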