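import Mathlib

/-!
# The number of questions exceeds the number of rows
-/

namespace Pool.Agent.Lib.MP_634427_lc.Small

/-- A power is at most a constant times an exponential. -/
theorem pow_le_two_pow (j s : ℕ) (hj : 1 ≤ j) : s ^ j ≤ j ^ j * 2 ^ s := by
  have h1 : s < j * (s / j + 1) := by
    have := Nat.div_add_mod s j
    have h2 := Nat.mod_lt s (show 0 < j by omega)
    calc s = j * (s / j) + s % j := this.symm
      _ < j * (s / j) + j := by omega
      _ = j * (s / j + 1) := by ring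
  have h3 : s / j + 1 ≤ 2 ^ (s / j) := Nat.lt_two_pow_self
  have h4 : s ≤ j * 2 ^ (s / j) := h1.le.trans (Nat.mul_le_mul_left _ h3)
  calc s ^ j ≤ (j * 2 ^ (s / j)) ^ j := Nat.pow_le_pow_left h4 _
    _ = j ^ j * 2 ^ (s / j * j) := by rw [mul_pow, pow_mul]
    _ ≤ j ^ j * 2 ^ s := Nat.mul_le_mul_left _
        (Nat.pow_le_pow_right (by norm_num) (Nat.div_mul_le_self s j))

/-- If `R` is a large multiple of `n ^ (2 k + 1)` and `R < t ≤ 2 R + 1`, then the bound
`b ^ (k + 1) ≤ c (21 t n) ^ k` for the size of the reduction and a bound `(R + 2) ^ d` for the number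
of rows suffice for the counting in `exists_del`. -/
theorem exists_const (k c d : ℕ) : ∃ K : ℕ, 1 ≤ K ∧ ∀ n R t b N : ℕ, 1 ≤ n →
    R = K * n ^ (2 * k + 1) → R < t → t ≤ 2 * R + 1 → b ^ (k + 1) ≤ c * (21 * t * n) ^ k →
    N ≤ (R + 2) ^ d → 2 ^ (b + 1) * (b + 1) * (N * (N * b ^ 2) ^ b) ≤ 2 ^ t := by
  -- the constants
  set e : ℕ := 42 * c + 1 with he
  set A : ℕ := 1 + (d + 4) + 2 * e with hA
  set C : ℕ := 2 ^ (k + 1) * (c + 1) * 21 ^ k * A ^ (k + 1) with hC
  set C' : ℕ := 2 * (2 * k + 2) ^ (2 * k + 2) with hC'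
  refine ⟨3 * C ^ 2 * C' + 1, by omega, ?_⟩
  intro n R t b N hn hR hRt htR hb hN
  have hn1 : 1 ≤ n ^ (2 * k + 1) := Nat.one_le_pow _ _ hn
  have hnR : n ≤ R := by
    have h1 : n ≤ n ^ (2 * k + 1) := Nat.le_self_pow (by omega) n
    calc n ≤ n ^ (2 * k + 1) := h1
      _ = 1 * n ^ (2 * k + 1) := (one_mul _).symm
      _ ≤ (3 * C ^ 2 * C' + 1) * n ^ (2 * k + 1) := Nat.mul_le_mul_right _ (by omega)
      _ = R := hR.symm
  have hR1 : 1 ≤ R := hn.trans hnR
  have ht1 : 1 ≤ t := by omega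
  set L : ℕ := Nat.log 2 (R + 2) + 1 with hL
  have hL1 : 1 ≤ L := by omega
  have hRL : R + 2 < 2 ^ L := Nat.lt_pow_succ_log_self (by norm_num) _
  have hLR : 2 ^ L ≤ 2 * (R + 2) := by
    rw [hL, pow_succ, mul_comm]
    exact Nat.mul_le_mul_left _ (Nat.pow_log_le_self 2 (by omega))
  -- the bound for b + 1
  have hX1 : 1 ≤ (21 * t * n) ^ k := Nat.one_le_pow _ _ (by positivity)
  have hbX : b ≤ c * (21 * t * n) := by
    by_contra hcon
    push Not at hcon
    have h1 : c * (21 * t * n) ^ k < b ^ (k + 1) := by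
      have hb0 : 0 < b := by omega
      rcases Nat.eq_zero_or_pos c with hc | hc
      · subst hc
        simp only [zero_mul]
        positivity
      · have h2 : 21 * t * n < b := by
          calc 21 * t * n = 1 * (21 * t * n) := (one_mul _).symm
            _ ≤ c * (21 * t * n) := Nat.mul_le_mul_right _ hc
            _ < b := hcon
        have h21 : 1 ≤ 21 * t * n := by
          have : 0 < 21 * t * n := by positivity
          omega
        calc c * (21 * t * n) ^ k ≤ c * (21 * t * n) * (21 * t * n) ^ k := by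
              calc c * (21 * t * n) ^ k = c * 1 * (21 * t * n) ^ k := by ring
                _ ≤ c * (21 * t * n) * (21 * t * n) ^ k :=
                  Nat.mul_le_mul_right _ (Nat.mul_le_mul_left _ h21)
          _ < b * (21 * t * n) ^ k := Nat.mul_lt_mul_of_pos_right hcon (by positivity)
          _ ≤ b * b ^ k := Nat.mul_le_mul_left _ (Nat.pow_le_pow_left h2.le _)
          _ = b ^ (k + 1) := by ring
    omega
  have he2 : e ≤ 2 ^ e := Nat.lt_two_pow_self.le
  have hb1 : b + 1 ≤ 2 ^ (e + 2 * L) := by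
    have h1 : b + 1 ≤ e * (R + 2) ^ 2 := by
      have h2 : 21 * t * n ≤ 42 * (R + 2) ^ 2 := by
        have h3 : t ≤ 2 * (R + 2) := by omega
        have h4 : n ≤ R + 2 := by omega
        calc 21 * t * n ≤ 21 * (2 * (R + 2)) * (R + 2) :=
              Nat.mul_le_mul (Nat.mul_le_mul_left _ h3) h4
          _ = 42 * (R + 2) ^ 2 := by ring
      calc b + 1 ≤ c * (42 * (R + 2) ^ 2) + 1 * 1 := by
            have := hbX.trans (Nat.mul_le_mul_left c h2)
            omega
        _ ≤ c * (42 * (R + 2) ^ 2) + 1 * (R + 2) ^ 2 := by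
            have : 1 ≤ (R + 2) ^ 2 := Nat.one_le_pow _ _ (by omega)
            omega
        _ = e * (R + 2) ^ 2 := by rw [he]; ring
    calc b + 1 ≤ e * (R + 2) ^ 2 := h1
      _ ≤ 2 ^ e * (2 ^ L) ^ 2 := Nat.mul_le_mul he2 (Nat.pow_le_pow_left hRL.le _)
      _ = 2 ^ (e + 2 * L) := by rw [← pow_mul, ← pow_add]; congr 1; ring
  have hN1 : N ≤ 2 ^ (d * L) := by
    calc N ≤ (R + 2) ^ d := hN
      _ ≤ (2 ^ L) ^ d := Nat.pow_le_pow_left hRL.le _
      _ = 2 ^ (d * L) := by rw [← pow_mul, mul_comm]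
  have hNb : N * b ^ 2 ≤ 2 ^ (d * L + 2 * e + 4 * L) := by
    calc N * b ^ 2 ≤ 2 ^ (d * L) * (2 ^ (e + 2 * L)) ^ 2 :=
          Nat.mul_le_mul hN1 (Nat.pow_le_pow_left (by omega) _)
      _ = 2 ^ (d * L + 2 * e + 4 * L) := by
          rw [← pow_mul, ← pow_add]; congr 1; ring
  have hmain : (b + 1) * (A * L) ≤ t := by
    have h1 : ((b + 1) * (A * L)) ^ (k + 1) ≤ t ^ (k + 1) := by
      have h2 : (b + 1) ^ (k + 1) ≤ 2 ^ (k + 1) * ((c + 1) * (21 * t * n) ^ k) := by
        rcases Nat.eq_zero_or_pos b with hb0 | hb0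
        · subst hb0
          calc (0 + 1) ^ (k + 1) = 1 * (1 * 1) := by simp
            _ ≤ 2 ^ (k + 1) * ((c + 1) * (21 * t * n) ^ k) :=
              Nat.mul_le_mul Nat.one_le_two_pow (Nat.mul_le_mul (by omega) hX1)
        · calc (b + 1) ^ (k + 1) ≤ (2 * b) ^ (k + 1) := Nat.pow_le_pow_left (by omega) _
            _ = 2 ^ (k + 1) * b ^ (k + 1) := by rw [mul_pow]
            _ ≤ 2 ^ (k + 1) * (c * (21 * t * n) ^ k) := Nat.mul_le_mul_left _ hb
            _ ≤ 2 ^ (k + 1) * ((c + 1) * (21 * t * n) ^ k) :=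
              Nat.mul_le_mul_left _ (Nat.mul_le_mul_right _ (by omega))
      have h3 : C * n ^ k * L ^ (k + 1) ≤ t := by
        have h4 : (C * n ^ k * L ^ (k + 1)) ^ 2 ≤ R ^ 2 := by
          have h5 : L ^ (2 * k + 2) ≤ C' * (R + 2) := by
            calc L ^ (2 * k + 2) ≤ (2 * k + 2) ^ (2 * k + 2) * 2 ^ L :=
                  pow_le_two_pow (2 * k + 2) L (by omega)
              _ ≤ (2 * k + 2) ^ (2 * k + 2) * (2 * (R + 2)) := Nat.mul_le_mul_left _ hLR
              _ = C' * (R + 2) := by rw [hC']; ring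
          calc (C * n ^ k * L ^ (k + 1)) ^ 2 = C ^ 2 * n ^ (2 * k) * L ^ (2 * k + 2) := by
                ring
            _ ≤ C ^ 2 * n ^ (2 * k) * (C' * (R + 2)) := Nat.mul_le_mul_left _ h5
            _ ≤ C ^ 2 * n ^ (2 * k) * (C' * (3 * R)) :=
                Nat.mul_le_mul_left _ (Nat.mul_le_mul_left _ (by omega))
            _ = (3 * C ^ 2 * C') * n ^ (2 * k) * R := by ring
            _ ≤ R * R := by
                refine Nat.mul_le_mul_right _ ?_
                calc (3 * C ^ 2 * C') * n ^ (2 * k)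
                    ≤ (3 * C ^ 2 * C' + 1) * n ^ (2 * k + 1) :=
                      Nat.mul_le_mul (by omega) (Nat.pow_le_pow_right hn (by omega))
                  _ = R := hR.symm
            _ = R ^ 2 := by ring
        have h6 : C * n ^ k * L ^ (k + 1) ≤ R :=
          (Nat.pow_le_pow_iff_left (by norm_num)).1 h4
        omega
      calc ((b + 1) * (A * L)) ^ (k + 1)
          = (b + 1) ^ (k + 1) * (A ^ (k + 1) * L ^ (k + 1)) := by rw [mul_pow, mul_pow]
        _ ≤ 2 ^ (k + 1) * ((c + 1) * (21 * t * n) ^ k) * (A ^ (k + 1) * L ^ (k + 1)) :=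
            Nat.mul_le_mul_right _ h2
        _ = t ^ k * (C * n ^ k * L ^ (k + 1)) := by
            rw [hC, mul_pow, mul_pow]; ring
        _ ≤ t ^ k * t := Nat.mul_le_mul_left _ h3
        _ = t ^ (k + 1) := by ring
    exact (Nat.pow_le_pow_iff_left (by omega)).1 h1
  calc 2 ^ (b + 1) * (b + 1) * (N * (N * b ^ 2) ^ b)
      ≤ 2 ^ (b + 1) * 2 ^ (e + 2 * L) * (2 ^ (d * L) * (2 ^ (d * L + 2 * e + 4 * L)) ^ b) :=
        Nat.mul_le_mul (Nat.mul_le_mul_left _ hb1)
          (Nat.mul_le_mul hN1 (Nat.pow_le_pow_left hNb _))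
    _ = 2 ^ ((b + 1) + (e + 2 * L) + (d * L + (d * L + 2 * e + 4 * L) * b)) := by
        rw [← pow_mul, ← pow_add, ← pow_add, ← pow_add]
    _ ≤ 2 ^ ((b + 1) * (A * L)) := by
        refine Nat.pow_le_pow_right (by norm_num) ?_
        have hLe : e ≤ e * L := Nat.le_mul_of_pos_right _ hL1
        have h7 : (b + 1) + (e + 2 * L) + (d * L + (d * L + 2 * e + 4 * L) * b)
            ≤ (b + 1) * (L + (d + 4) * L + 2 * (e * L)) := by
          have h8 : (b + 1) * (L + (d + 4) * L + 2 * (e * L)) =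
              (b + 1) * L + ((d * L + 2 * (e * L) + 4 * L) + (d * L + 2 * (e * L) + 4 * L) * b) := by
            ring
          rw [h8]
          have h9 : b + 1 ≤ (b + 1) * L := Nat.le_mul_of_pos_right _ hL1
          have h10 : (d * L + 2 * e + 4 * L) * b ≤ (d * L + 2 * (e * L) + 4 * L) * b :=
            Nat.mul_le_mul_right _ (by omega)
          omega
        calc _ ≤ (b + 1) * (L + (d + 4) * L + 2 * (e * L)) := h7
          _ = (b + 1) * (A * L) := by rw [hA]; ring
    _ ≤ 2 ^ t := Nat.pow_le_pow_right (by norm_num) hmain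

end Pool.Agent.Lib.MP_634427_lc.Small
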