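import Pool.Agent.Lib.MP_634427_lc.Small.CoNP

/-!
# Small reductions to a sparse set: NP = coNP, with exponents that depend on the set
-/

namespace Pool.Agent.Lib.MP_634427_lc.Small

open Pool.Agent.Lib.MP_634427_lc

/-- If each set in NP is reducible to one sparse set by a small reduction, with an exponent that
may depend on the set in NP, then NP = coNP. -/
theorem coNP_of_small_each (S : Set Word) (hS : Sparse S)
    (hard : ∀ A : Set Word, InNP A → ∃ k, SmallReducible k A S) (L : Set Word) (hL : InNP L) :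
    InNP Lᶜ := by
  obtain ⟨Rel, m, hRel, hm, hLR⟩ := exists_rel hL
  obtain ⟨A, hA, hAc⟩ := exists_np_code (qver Rel) (fun a => m a.1) (pt_qver hRel)
    (hm.comp PT.fst)
  obtain ⟨k, f, E, c, hf, hfb, hfE⟩ := hard A hA
  obtain ⟨cS, hcS⟩ := hS
  obtain ⟨cf, hcf⟩ := hf.size_le
  have hA' : ∀ x V D, inst x V D ∈ A ↔ ∃ w : Word, w.length = m x ∧
      Rel (x, w) = true ∧ ∃ i < V.length, D.getD i false = true ∧ V.getD i [] <+: w := by
    intro x V D
    unfold inst
    rw [hAc]
    simp only [qver_iff]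
  -- the parameters
  obtain ⟨d, hd⟩ : PB fun R => (((42 * (2 * R + 1) * R + 2) ^ cf) ^ cS + cS) * (2 * R + 1) + 2 :=
    PB.add (PB.mul (PB.add (PB.pow (PB.pow (PB.add (PB.mul (PB.mul (PB.const 42)
      (PB.add (PB.mul (PB.const 2) PB.id) (PB.const 1))) PB.id) (PB.const 2)) cf) cS)
      (PB.const cS)) (PB.add (PB.mul (PB.const 2) PB.id) (PB.const 1))) (PB.const 2)
  obtain ⟨K, hK, hKc⟩ := exists_const k c d
  let n : Word → ℕ := fun x => x.length + m x + 1
  let R : Word → ℕ := fun x => K * n x ^ (2 * k + 1)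
  let B : Word → ℕ := fun x => (42 * (2 * R x + 1) * n x + 2) ^ cf
  let M : Word → ℕ := fun x => B x ^ cS + cS
  let t' : Word → ℕ := fun x => 2 * R x + 1
  let Z : Word → ℕ := fun x => (M x * t' x + 2) * (2 * t' x + 1) + 2 * (c * (21 * t' x * n x) ^ k)
    + t' x + 5
  have hn : PT n := PT.succ (PT.add (PT.length PT.id) hm)
  have hR : PT R := PT.mul (PT.const K) (PT.pow hn _)
  have hB : PT B := PT.pow (PT.add (PT.mul (PT.mul (PT.const 42)
    (PT.add (PT.mul (PT.const 2) hR) (PT.const 1))) hn) (PT.const 2)) cf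
  have hM : PT M := PT.add (PT.pow hB cS) (PT.const cS)
  have ht' : PT t' := PT.add (PT.mul (PT.const 2) hR) (PT.const 1)
  have hZ : PT Z := PT.add (PT.add (PT.add (PT.mul (PT.add (PT.mul hM ht') (PT.const 2))
    (PT.add (PT.mul (PT.const 2) ht') (PT.const 1))) (PT.mul (PT.const 2) (PT.mul (PT.const c)
      (PT.pow (PT.mul (PT.mul (PT.const 21) ht') hn) k)))) ht') (PT.const 5)
  have hn1 : ∀ x, 1 ≤ n x := fun x => by simp only [n]; omega
  have hnR : ∀ x, n x ≤ R x := by
    intro x
    calc n x = 1 * n x ^ 1 := by simp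
      _ ≤ K * n x ^ (2 * k + 1) := Nat.mul_le_mul hK (Nat.pow_le_pow_right (hn1 x) (by omega))
  have hR1 : ∀ x, 1 ≤ R x := fun x => (hn1 x).trans (hnR x)
  -- the length of the words
  have hBw : ∀ x V D, V.length ≤ 2 * R x + 1 → (∀ v ∈ V, v.length ≤ m x) →
      D.length = V.length → ∀ w ∈ (f (inst x V D)).2, w.length ≤ B x := by
    intro x V D hV hv hD w hw
    have h1 : w.length ≤ sz (f (inst x V D)) := by
      have h2 := length_le_sz w
      have h3 := sz_mem_le hw
      rw [sz_prod]
      omega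
    refine h1.trans ((hcf _).trans (Nat.pow_le_pow_left ?_ cf))
    have h4 := sz_word_le (inst x V D)
    rcases Nat.eq_zero_or_pos V.length with h0 | h0
    · have hV0 : V = [] := List.length_eq_zero_iff.1 h0
      have hD0 : D = [] := List.length_eq_zero_iff.1 (hD.trans h0)
      subst hV0; subst hD0
      have h5 : (inst x [] []).length = 2 * (sz x + (sz ([] : List Word) + sz ([] : Word) + 1) + 1)
        + 1 := length_code _
      have h6 := sz_word_le x
      simp only [sz_lnil] at h5
      have h7 : x.length + 1 ≤ n x := by simp only [n]; omega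
      have h8 : n x ≤ (2 * R x + 1) * n x := Nat.le_mul_of_pos_left _ (by omega)
      nlinarith
    · have h5 := length_inst_le x V D (m x) h0 hv hD
      have h6 : 21 * V.length * (x.length + m x + 1) ≤ 21 * (2 * R x + 1) * n x :=
        Nat.mul_le_mul (Nat.mul_le_mul_left _ hV) le_rfl
      have h7 : 42 * (2 * R x + 1) * n x = 2 * (21 * (2 * R x + 1) * n x) := by ring
      omega
  -- deletions exist
  have hdel : ∀ x V, R x < V.length → V.length ≤ 2 * R x + 1 → (∀ v ∈ V, v.length ≤ m x) →
      ∃ (Ds : List Word) (κ : List Bool) (i : ℕ), i < V.length ∧ delOK f (M x) x V Ds κ i = true ∧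
        sz (Ds, (κ, i)) ≤ Z x := by
    intro x V h1 h2 h3
    obtain ⟨X, hX⟩ : ∃ X, X = c * (21 * V.length * n x) ^ k := ⟨_, rfl⟩
    let b : ℕ := Nat.findGreatest (fun b => b ^ (k + 1) ≤ X) X
    have hb : b ^ (k + 1) ≤ X :=
      Nat.findGreatest_spec (P := fun b => b ^ (k + 1) ≤ X) (m := 0) (Nat.zero_le _) (by simp)
    have hbX : b ≤ X := Nat.findGreatest_le _
    have hbD : ∀ D : Word, D.length = V.length →
        (f (inst x V D)).1.length + (f (inst x V D)).2.length ≤ b := by
      intro D hD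
      have h4 := hfb (inst x V D)
      have h5 := length_inst_le x V D (m x) (by omega) h3 hD
      have h6 : ((f (inst x V D)).1.length + (f (inst x V D)).2.length) ^ (k + 1) ≤ X := by
        rw [hX]
        exact h4.trans (Nat.mul_le_mul_left _ (Nat.pow_le_pow_left h5 k))
      exact Nat.le_findGreatest ((Nat.le_self_pow (by omega) _).trans h6) h6
    have hN : M x * V.length + 2 ≤ (R x + 2) ^ d := by
      refine le_trans ?_ (hd (R x))
      refine Nat.add_le_add (Nat.mul_le_mul (Nat.add_le_add (Nat.pow_le_pow_left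
        (Nat.pow_le_pow_left (Nat.add_le_add (Nat.mul_le_mul_left _ (hnR x)) le_rfl) cf) cS)
        le_rfl) h2) le_rfl
    have hcount := hKc (n x) (R x) V.length b (M x * V.length + 2) (hn1 x) rfl h1 h2
      (hX ▸ hb) hN
    obtain ⟨Ds, κ, i, hl, hD, hκ, hi, hfl, hsp⟩ :=
      exists_del (fun D => f (inst x V D)) V.length b (M x) hbD hcount
    refine ⟨Ds, κ, i, hi, ?_, ?_⟩
    · simp only [delOK, hfl, hsp, Bool.and_true, List.all_eq_true, decide_eq_true_eq]
      exact hD
    · have h4 := sz_list_le Ds V.length fun v hv => (hD v hv).le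
      have h5 : sz κ ≤ 2 * κ.length := sz_word_le κ
      have h6 : V.length ≤ t' x := h2
      have h7 : Ds.length * (2 * V.length + 1) ≤ (M x * t' x + 2) * (2 * t' x + 1) := by
        rw [hl]
        exact Nat.mul_le_mul (Nat.add_le_add (Nat.mul_le_mul_left _ h6) le_rfl) (by omega)
      have h8 : X ≤ c * (21 * t' x * n x) ^ k := by
        rw [hX]
        exact Nat.mul_le_mul_left _ (Nat.pow_le_pow_left
          (Nat.mul_le_mul_right _ (Nat.mul_le_mul_left _ h6)) k)
      simp only [sz_pair, sz_nat, Z]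
      omega
  have hW : PT fun x => m x * ((R x + 2) * (Z x + 2)) :=
    PT.mul hm (PT.mul (PT.add hR (PT.const 2)) (PT.add hZ (PT.const 2)))
  obtain ⟨e, he⟩ := hW.size_le
  have hdec : HasDec (List Step) := hasDec_list (hasDec_option (hasDec_prod
    (hasDec_list (hasDec_list hasDec_bool)) (hasDec_prod (hasDec_list hasDec_bool) hasDec_nat)))
  refine inNP_of_cert hdec (check Rel f M R m) (pt_check hRel hf hM hR hm) Lᶜ ?_ e ?_
  · intro x cs h
    rw [Set.mem_compl_iff, hLR]
    exact check_sound hA' hfE hBw (fun x => hcS (B x)) x cs h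
  · intro x hx
    rw [Set.mem_compl_iff, hLR] at hx
    obtain ⟨cs, h1, h2⟩ := check_complete Rel f M R m Z hR1 hdel x hx
    have h3 := he x
    rw [sz_nat] at h3
    exact ⟨cs, h1.trans h3, h2⟩

end Pool.Agent.Lib.MP_634427_lc.Small
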