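import Pool.Agent.Lib.MP_634427_lc.Small.Model
import Pool.Agent.Lib.MP_634427_lc.Data

/-!
# Lists of prefixes, deletion certificates: definitions
-/

namespace Pool.Agent.Lib.MP_634427_lc.Small

open Pool.Agent.Lib.MP_634427_lc

/-- The entries of `l` at the core positions (those where `κ` is `true`). -/
def core (κ : List Bool) (l : List Word) : List Word :=
  ((κ.zip l).filter fun q => q.1).map Prod.snd

/-- The entries of `l` at the other positions. -/
def petals (κ : List Bool) (l : List Word) : List Word :=
  ((κ.zip l).filter fun q => !q.1).map Prod.snd

/-- Have the lists `l` and `l'` no common word? -/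
def disj (l l' : List Word) : Bool := l.all fun w => l'.all fun w' => !decide (w = w')

/-- Are the lists in `L` pairwise disjoint? -/
def pwd : List (List Word) → Bool
  | [] => true
  | l :: t => t.all (fun l' => disj l l') && pwd t

/-- The question whether one of the words of `V` selected by `D` is a prefix of a witness. -/
def inst (x : Word) (V : List Word) (D : Word) : Word := code (enc (x, (V, D)))

/-- `rows` (the values of the reduction for the questions `Ds`) form a sunflower with core `κ`. -/
def flower (κ : List Bool) (rows : List (Word × List Word)) : Bool :=
  (rows.all fun r => decide (r.2.length = κ.length) &&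
    (decide (r.1 = (rows.headD ([], [])).1) &&
      decide (core κ r.2 = core κ (rows.headD ([], [])).2))) &&
  pwd (rows.map fun r => petals κ r.2)

/-- The questions `Ds` separate position `i` more than `M` times in both ways. -/
def splits (M i : ℕ) (Ds : List Word) : Bool :=
  decide (M < (Ds.filter fun D => D.getD i false).length) &&
  decide (M < (Ds.filter fun D => !D.getD i false).length)

/-- `Ds`, `κ`, `i` certify that the `i`-th word of `V` may be deleted. -/
def delOK (f : Word → Word × List Word) (M : ℕ) (x : Word) (V Ds : List Word) (κ : List Bool)
    (i : ℕ) : Bool :=
  (Ds.all fun D => decide (D.length = V.length)) &&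
  (flower κ (Ds.map fun D => f (inst x V D)) && splits M i Ds)

/-- A step: `none` extends all words of the list by one letter, `some (Ds, κ, i)` deletes the
`i`-th word. -/
abbrev Step : Type := Option (List Word × (List Bool × ℕ))

/-- Perform a step (a step that is not allowed does nothing). -/
def stp (f : Word → Word × List Word) (M R m : Word → ℕ) (x : Word) (s : Step)
    (V : List Word) : List Word :=
  match s with
  | none => if decide (V.length ≤ R x) && V.all (fun v => decide (v.length < m x)) then ext V else V
  | some q => if delOK f (M x) x V q.1 q.2.1 q.2.2 then V.take q.2.2 ++ V.drop (q.2.2 + 1) else V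

/-- Perform the steps of a list, beginning at its end. -/
def run (f : Word → Word × List Word) (M R m : Word → ℕ) (x : Word) (cs : List Step) :
    List Word := cs.foldr (stp f M R m x) [[]]

/-- Check a certificate for the fact that `x` has no witness. -/
def check (Rel : Word × Word → Bool) (f : Word → Word × List Word) (M R m : Word → ℕ)
    (p : Word × List Step) : Bool :=
  (run f M R m p.1 p.2).all fun v =>
    decide (m p.1 ≤ v.length) && !(decide (v.length = m p.1) && Rel (p.1, v))

end Pool.Agent.Lib.MP_634427_lc.Small
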