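import Pool.Agent.Lib.MP_634427_lc.Small.Model
import Pool.Agent.Lib.MP_634427_lc.AlgoPT

/-!
# Examples of small reductions

Truth-table reductions with few queries and an evaluator that depends only on the answers, and
Turing reductions with at most `c log n` adaptive queries, `c < 1`.
-/

namespace Pool.Agent.Lib.MP_634427_lc.Small

open Pool.Agent.Lib.MP_634427_lc

/-- A truth-table reduction with few queries and a fixed evaluator is small. -/
theorem small_of_tt {k c : ℕ} {A S : Set Word} (f : Word → List Word) (E : List Bool → Prop)
    (hf : PT f) (hc : ∀ x, (f x).length ^ (k + 1) ≤ c * (x.length + 1) ^ k)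
    (hA : ∀ x, x ∈ A ↔ E (answerList S (f x))) : SmallReducible k A S :=
  ⟨fun x => ([], f x), fun _ => E, c, PT.pair (PT.const []) hf, fun x => by simpa using hc x, hA⟩

/-- A disjunctive reduction with few queries is small. -/
theorem small_of_disj {k c : ℕ} {A S : Set Word} (f : Word → List Word) (hf : PT f)
    (hc : ∀ x, (f x).length ^ (k + 1) ≤ c * (x.length + 1) ^ k)
    (hA : ∀ x, x ∈ A ↔ ∃ q ∈ f x, q ∈ S) : SmallReducible k A S := by
  refine small_of_tt f (fun l => true ∈ l) hf hc fun x => ?_
  rw [hA]
  simp [answerList]

/-- A majority reduction with few queries is small. -/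
theorem small_of_maj {k c : ℕ} {A S : Set Word} (f : Word → List Word) (hf : PT f)
    (hc : ∀ x, (f x).length ^ (k + 1) ≤ c * (x.length + 1) ^ k)
    (hA : ∀ x, x ∈ A ↔ (f x).length < 2 * (answerList S (f x)).count true) :
    SmallReducible k A S := by
  refine small_of_tt f (fun l => l.length < 2 * l.count true) hf hc fun x => ?_
  rw [hA]
  simp [answerList]

open Classical in
/-- The answers to the first `n` queries of an adaptive computation with oracle `S`. -/
noncomputable def adaptive (S : Set Word) (query : List Bool → Word) : ℕ → List Bool
  | 0 => []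
  | n + 1 => adaptive S query n ++ [decide (query (adaptive S query n) ∈ S)]

/-- All words of length `n`. -/
def allW : ℕ → List Word
  | 0 => [[]]
  | n + 1 => ext (allW n)

/-- All words of length less than `n`. -/
def shortW : ℕ → List Word
  | 0 => []
  | n + 1 => shortW n ++ allW n

lemma length_allW (n : ℕ) : (allW n).length = 2 ^ n := by
  induction n with
  | zero => rfl
  | succ n ih =>
    have key : ∀ B : List Word, (ext B).length = 2 * B.length := by
      intro B
      induction B with
      | nil => rfl
      | cons c B ih => simp only [ext, List.flatMap_cons, List.length_append, List.length_cons,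
          List.length_nil] at ih ⊢; omega
    rw [allW, key, ih, pow_succ]; ring

lemma length_shortW (n : ℕ) : (shortW n).length + 1 = 2 ^ n := by
  induction n with
  | zero => rfl
  | succ n ih => rw [shortW, List.length_append, length_allW, pow_succ]; omega

lemma mem_allW {n : ℕ} {w : Word} : w ∈ allW n ↔ w.length = n := by
  induction n generalizing w with
  | zero => simp [allW]
  | succ n ih =>
    simp only [allW, ext, List.mem_flatMap, List.mem_cons, List.not_mem_nil, or_false]
    constructor
    · rintro ⟨c, hc, rfl | rfl⟩ <;> simp [ih.1 hc]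
    · intro h
      have hne : w ≠ [] := by rintro rfl; simp at h
      refine ⟨w.dropLast, ih.2 (by simp [h]), ?_⟩
      have h2 := List.dropLast_append_getLast hne
      cases h3 : w.getLast hne
      · left; rw [h3] at h2; exact h2.symm
      · right; rw [h3] at h2; exact h2.symm

lemma mem_shortW {n : ℕ} {w : Word} : w ∈ shortW n ↔ w.length < n := by
  induction n with
  | zero => simp [shortW]
  | succ n ih => rw [shortW, List.mem_append, ih, mem_allW]; omega

lemma length_adaptive (S : Set Word) (query : List Bool → Word) (n : ℕ) :
    (adaptive S query n).length = n := by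
  induction n with
  | zero => rfl
  | succ n ih => simp [adaptive, ih]

lemma take_adaptive (S : Set Word) (query : List Bool → Word) (n j : ℕ) (h : j ≤ n) :
    (adaptive S query n).take j = adaptive S query j := by
  induction n with
  | zero => simp [Nat.le_zero.1 h, adaptive]
  | succ n ih =>
    rcases Nat.lt_or_ge j (n + 1) with h1 | h1
    · rw [adaptive, List.take_append_of_le_length (by rw [length_adaptive]; omega),
        ih (by omega)]
    · have h2 : j = n + 1 := le_antisymm h h1
      rw [h2, List.take_of_length_le (by rw [length_adaptive])]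

/-- The entry of `m` in the position of `w` in the list `l`. -/
def look (l : List Word) (m : List Bool) (w : Word) : Bool := m.getD (l.idxOf w) false

lemma look_map (l : List Word) (g : Word → Bool) (w : Word) (hw : w ∈ l) :
    look l (l.map g) w = g w := by
  have h1 := List.idxOf_lt_length_of_mem hw
  unfold look
  rw [List.getD_eq_getElem?_getD, List.getElem?_map, List.getElem?_eq_getElem h1,
    List.getElem_idxOf h1]
  rfl

/-- `A` is reducible to `S` by a polynomial-time Turing reduction with `q x` adaptive queries,
where `2 ^ q x` is `O(|x| ^ (k / (k + 1)))`. -/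
def LogReducible (k : ℕ) (A S : Set Word) : Prop :=
  ∃ (q : Word → ℕ) (query : Word × List Bool → Word) (out : Word × List Bool → Bool) (c : ℕ),
    PT q ∧ PT query ∧ PT out ∧ (∀ x, (2 ^ q x) ^ (k + 1) ≤ c * (x.length + 1) ^ k) ∧
    ∀ x, x ∈ A ↔ out (x, adaptive S (fun l => query (x, l)) (q x)) = true

lemma sz_allW_le (n : ℕ) : sz (allW n) ≤ 2 ^ n * (2 * n + 1) := by
  have key : ∀ L : List Word, (∀ w ∈ L, w.length ≤ n) → sz L ≤ L.length * (2 * n + 1) := by
    intro L
    induction L with
    | nil => intro _; simp
    | cons w L ih =>
      intro h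
      have h1 := ih fun v hv => h v (List.mem_cons_of_mem _ hv)
      have h2 := sz_word_le w
      have h3 := h w List.mem_cons_self
      simp only [sz_cons, List.length_cons]
      calc sz w + sz L + 1 ≤ (2 * n + 1) + L.length * (2 * n + 1) := by omega
        _ = (L.length + 1) * (2 * n + 1) := by ring
  have := key (allW n) fun w hw => (mem_allW.1 hw).le
  rwa [length_allW] at this

lemma allW_eq (n : ℕ) : Nat.rec (motive := fun _ => List Word) [[]] (fun _ r => ext r) n
    = allW n := by
  induction n with
  | zero => rfl
  | succ n ih => show ext _ = ext _; rw [ih]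

lemma shortW_eq (n : ℕ) : (List.range n).flatMap allW = shortW n := by
  induction n with
  | zero => rfl
  | succ n ih => rw [List.range_succ, List.flatMap_append, ih, shortW]; simp

lemma pt_allW {γ : Type} [Enc γ] {n B : γ → ℕ} (hn : PT n) (hB : PT B)
    (h : ∀ c, 2 ^ n c ≤ B c) : PT fun c => allW (n c) := by
  have h1 := PT.natRec (s := fun _ : γ => ([[]] : List Word)) (f := fun _ _ r => ext r) hn
    (PT.const _) (PT.ext (PT.snd' PT.snd)) (by
      obtain ⟨k, hk⟩ := hB.size_le
      obtain ⟨e, he⟩ : PB fun N => (N + 2) ^ k * (2 * (N + 2) ^ k + 1) :=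
        PB.mul ⟨k, fun n => le_rfl⟩ (PB.add (PB.mul (PB.const 2) ⟨k, fun n => le_rfl⟩) (PB.const 1))
      refine ⟨e, fun c i hi => ?_⟩
      rw [allW_eq]
      refine (sz_allW_le i).trans (le_trans ?_ (he (sz c)))
      have h2 : 2 ^ i ≤ (sz c + 2) ^ k := by
        refine (Nat.pow_le_pow_right (by norm_num) hi).trans ((h c).trans ?_)
        have := hk c
        rwa [sz_nat] at this
      have h3 : i ≤ (sz c + 2) ^ k := Nat.lt_two_pow_self.le.trans h2
      exact Nat.mul_le_mul h2 (by omega))
  exact h1.of_eq fun c => allW_eq _

lemma pt_shortW {γ : Type} [Enc γ] {n B : γ → ℕ} (hn : PT n) (hB : PT B)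
    (h : ∀ c, 2 ^ n c ≤ B c) : PT fun c => shortW (n c) := by
  have h1 : PT fun p : γ × ℕ => allW (min p.2 (n p.1)) :=
    pt_allW (PT.min PT.snd (hn.comp PT.fst)) (hB.comp PT.fst) fun p =>
      (Nat.pow_le_pow_right (by norm_num) (min_le_right _ _)).trans (h p.1)
  refine (PT.flatMap (f := fun c i => allW (min i (n c))) (PT.range hn) h1).of_eq fun c => ?_
  rw [← shortW_eq]
  refine List.flatMap_congr fun i hi => ?_
  rw [min_eq_left (List.mem_range.1 hi).le]

/-- Turing reductions with few adaptive queries are small. -/
theorem LogReducible.small {k : ℕ} {A S : Set Word} (h : LogReducible k A S) :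
    SmallReducible k A S := by
  obtain ⟨q, query, out, c, hq, hquery, hout, hc, hA⟩ := h
  have hB : ∀ x, 2 ^ q x ≤ c * (x.length + 1) ^ k := fun x =>
    (Nat.le_self_pow (by omega) _).trans (hc x)
  have hBp : PT fun x : Word => c * (x.length + 1) ^ k :=
    PT.mul (PT.const c) (PT.pow (PT.succ (PT.length PT.id)) k)
  refine ⟨fun x => ((allW (q x)).map fun l => out (x, l), (shortW (q x)).map fun l => query (x, l)),
    fun e a => ∃ n l, e.length = 2 ^ n ∧ l.length = n ∧
      (∀ j < n, l.getD j false = look (shortW n) a (l.take j)) ∧ look (allW n) e l = true,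
    c * 2 ^ (k + 1), ?_, ?_, ?_⟩
  · exact PT.pair (PT.map (f := fun (x : Word) l => out (x, l)) (pt_allW hq hBp hB) hout)
      (PT.map (f := fun (x : Word) l => query (x, l)) (pt_shortW hq hBp hB) hquery)
  · intro x
    have h1 := length_allW (q x)
    have h2 := length_shortW (q x)
    simp only [List.length_map]
    have h3 : (allW (q x)).length + (shortW (q x)).length ≤ 2 * 2 ^ q x := by omega
    calc ((allW (q x)).length + (shortW (q x)).length) ^ (k + 1)
        ≤ (2 * 2 ^ q x) ^ (k + 1) := Nat.pow_le_pow_left h3 _
      _ = 2 ^ (k + 1) * (2 ^ q x) ^ (k + 1) := mul_pow _ _ _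
      _ ≤ 2 ^ (k + 1) * (c * (x.length + 1) ^ k) := Nat.mul_le_mul_left _ (hc x)
      _ = c * 2 ^ (k + 1) * (x.length + 1) ^ k := by ring
  · intro x
    rw [hA]
    have key : ∀ l : Word, l.length = q x → (∀ j < q x, l.getD j false =
        look (shortW (q x)) (answerList S ((shortW (q x)).map fun l => query (x, l)))
          (l.take j)) → l = adaptive S (fun l => query (x, l)) (q x) := by
      intro l hl hj
      have h1 : ∀ j ≤ q x, l.take j = adaptive S (fun l => query (x, l)) j := by
        intro j
        induction j with
        | zero => intro _; simp [adaptive]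
        | succ j ih =>
          intro h2
          have h3 := ih (by omega)
          have h4 := hj j (by omega)
          have h5 : l.take (j + 1) = l.take j ++ [l.getD j false] := by
            rw [List.take_add_one, List.getD_eq_getElem?_getD, List.getElem?_eq_getElem (by omega)]
            rfl
          rw [h5, h4, h3, adaptive, answerList, List.map_map, look_map _ _ _ (mem_shortW.2
            (by rw [length_adaptive]; omega))]
          rfl
      have := h1 (q x) le_rfl
      rwa [List.take_of_length_le hl.le] at this
    constructor
    · intro h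
      refine ⟨q x, adaptive S (fun l => query (x, l)) (q x), ?_, length_adaptive _ _ _, ?_, ?_⟩
      · rw [List.length_map, length_allW]
      · intro j hj
        rw [take_adaptive _ _ _ _ hj.le, answerList, List.map_map, look_map _ _ _ (mem_shortW.2
            (by rw [length_adaptive]; omega))]
        have h1 := take_adaptive S (fun l => query (x, l)) (q x) (j + 1) hj
        have h2 : (adaptive S (fun l => query (x, l)) (q x)).getD j false =
            ((adaptive S (fun l => query (x, l)) (q x)).take (j + 1)).getD j false := by
          rw [List.getD_eq_getElem?_getD, List.getD_eq_getElem?_getD, List.getElem?_take_of_lt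
            (by omega)]
        rw [h2, h1, adaptive, List.getD_append_right _ _ _ _ (by rw [length_adaptive]),
          length_adaptive, Nat.sub_self]
        rfl
      · rw [look_map _ _ _ (mem_allW.2 (length_adaptive _ _ _))]
        exact h
    · rintro ⟨n, l, h1, h2, h3, h4⟩
      rw [List.length_map, length_allW] at h1
      have hn : n = q x := (Nat.pow_right_injective le_rfl h1).symm
      subst hn
      have h5 := key l h2 h3
      rw [look_map _ _ _ (mem_allW.2 h2), h5] at h4
      exact h4

end Pool.Agent.Lib.MP_634427_lc.Small
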