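import Pool.Agent.Lib.MP_634427_lc.Small.Defs

/-!
# Sunflowers of rows have the same answers, up to few rows
-/

namespace Pool.Agent.Lib.MP_634427_lc.Small

open Pool.Agent.Lib.MP_634427_lc

private lemma Rw_disj (l l' : List Word) : disj l l' = true ↔ ∀ w ∈ l, w ∉ l' := by
  simp only [disj, List.all_eq_true, Bool.not_eq_true', decide_eq_false_iff_not]
  constructor
  · intro h w hw hw'
    exact h w hw w hw' rfl
  · intro h w hw w' hw' e
    subst e
    exact h w hw hw'

lemma pwd_iff (L : List (List Word)) :
    pwd L = true ↔ L.Pairwise fun l l' => ∀ w ∈ l, w ∉ l' := by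
  induction L with
  | nil => simp [pwd]
  | cons l t ih =>
    rw [pwd, Bool.and_eq_true, ih, List.all_eq_true, List.pairwise_cons]
    simp only [Rw_disj]

/-- Rows with the same core and no petal in `S` have the same answers. -/
lemma answerList_eq (S : Set Word) (κ : List Bool) (l l' : List Word) (hl : l.length = κ.length)
    (hl' : l'.length = κ.length) (hc : core κ l = core κ l') (hp : ∀ w ∈ petals κ l, w ∉ S)
    (hp' : ∀ w ∈ petals κ l', w ∉ S) : answerList S l = answerList S l' := by
  induction κ generalizing l l' with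
  | nil =>
    rw [List.length_nil, List.length_eq_zero_iff] at hl hl'
    rw [hl, hl']
  | cons b κ ih =>
    cases l with
    | nil => simp at hl
    | cons w l =>
      cases l' with
      | nil => simp at hl'
      | cons w' l' =>
        rw [List.length_cons, List.length_cons, Nat.add_right_cancel_iff] at hl hl'
        cases b with
        | true =>
          have hc' : w = w' ∧ core κ l = core κ l' := by
            simpa [core] using hc
          have h1 := ih l l' hl hl' hc'.2 (fun v hv => hp v (by simpa [petals] using hv))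
            (fun v hv => hp' v (by simpa [petals] using hv))
          rw [answerList, answerList] at h1 ⊢
          rw [List.map_cons, List.map_cons, h1, hc'.1]
        | false =>
          have hc' : core κ l = core κ l' := by
            simpa [core] using hc
          have e1 : petals (false :: κ) (w :: l) = w :: petals κ l := by simp [petals]
          have e2 : petals (false :: κ) (w' :: l') = w' :: petals κ l' := by simp [petals]
          rw [e1] at hp
          rw [e2] at hp'
          have h1 := ih l l' hl hl' hc' (fun v hv => hp v (List.mem_cons_of_mem _ hv))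
            (fun v hv => hp' v (List.mem_cons_of_mem _ hv))
          have h2 : w ∉ S := hp w List.mem_cons_self
          have h3 : w' ∉ S := hp' w' List.mem_cons_self
          rw [answerList, answerList] at h1 ⊢
          rw [List.map_cons, List.map_cons, h1]
          simp only [h2, h3]

open Classical in
/-- Few of pairwise disjoint lists contain a word of `S`. -/
lemma length_bad_le (S : Set Word) (B M : ℕ) (hS : {w ∈ S | w.length ≤ B}.ncard ≤ M)
    (L : List (List Word)) (hL : L.Pairwise fun l l' => ∀ w ∈ l, w ∉ l')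
    (hB : ∀ l ∈ L, ∀ w ∈ l, w.length ≤ B) :
    (L.filter fun l => decide (∃ w ∈ l, w ∈ S)).length ≤ M := by
  have hfin : {w ∈ S | w.length ≤ B}.Finite := by
    refine (List.finite_length_le Bool B).subset ?_
    rintro w ⟨-, hw⟩
    exact hw
  obtain ⟨g, hg⟩ : ∃ g : List Word → Word, ∀ l, (∃ w ∈ l, w ∈ S) → g l ∈ l ∧ g l ∈ S := by
    refine ⟨fun l => if h : ∃ w ∈ l, w ∈ S then h.choose else [], fun l h => ?_⟩
    simp only [dif_pos h]
    exact h.choose_spec
  have hmem : ∀ l ∈ L.filter fun l => decide (∃ w ∈ l, w ∈ S), l ∈ L ∧ g l ∈ l ∧ g l ∈ S := by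
    intro l hl
    obtain ⟨h1, h2⟩ := List.mem_filter.1 hl
    exact ⟨h1, hg l (of_decide_eq_true h2)⟩
  have hnd : ((L.filter fun l => decide (∃ w ∈ l, w ∈ S)).map g).Nodup := by
    rw [List.Nodup, List.pairwise_map]
    refine (hL.filter _).imp_of_mem fun {a b} ha hb hab he => ?_
    have h1 := (hmem a ha).2.1
    have h2 := (hmem b hb).2.1
    rw [← he] at h2
    exact hab _ h1 h2
  rw [← List.length_map (f := g), ← List.toFinset_card_of_nodup hnd]
  refine le_trans ?_ hS
  rw [Set.ncard_eq_toFinset_card _ hfin]
  refine Finset.card_le_card fun w hw => ?_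
  rw [List.mem_toFinset, List.mem_map] at hw
  obtain ⟨l, hl, rfl⟩ := hw
  obtain ⟨h1, h2, h3⟩ := hmem l hl
  rw [Set.Finite.mem_toFinset]
  exact ⟨h3, hB l h1 _ h2⟩

/-- If `Ds` and `κ` certify a sunflower and `Ds` splits position `i`, then the truth of the question
`D` cannot be given by the `i`-th letter of `D`. -/
theorem not_forall_of_flower (S : Set Word) (B M : ℕ) (hS : {w ∈ S | w.length ≤ B}.ncard ≤ M)
    (g : Word → Word × List Word) (E : Word → List Bool → Prop) (Ds : List Word) (κ : List Bool)
    (i : ℕ) (hB : ∀ D ∈ Ds, ∀ w ∈ (g D).2, w.length ≤ B) (hf : flower κ (Ds.map g) = true)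
    (hs : splits M i Ds = true) :
    ¬ ∀ D ∈ Ds, (E (g D).1 (answerList S (g D).2) ↔ D.getD i false = true) := by
  classical
  intro hall
  rw [splits, Bool.and_eq_true, decide_eq_true_eq, decide_eq_true_eq] at hs
  obtain ⟨hs1, hs2⟩ := hs
  rw [flower, Bool.and_eq_true, List.all_eq_true, pwd_iff, List.pairwise_map,
    List.pairwise_map] at hf
  obtain ⟨hf1, hf2⟩ := hf
  have hrow : ∀ D ∈ Ds, (g D).2.length = κ.length ∧ (g D).1 = ((Ds.map g).headD ([], [])).1 ∧
      core κ (g D).2 = core κ ((Ds.map g).headD ([], [])).2 := by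
    intro D hD
    have h1 := hf1 (g D) (List.mem_map_of_mem hD)
    simpa only [Bool.and_eq_true, decide_eq_true_eq] using h1
  have hsub : ∀ l : List Word, ∀ w ∈ petals κ l, w ∈ l := by
    intro l w hw
    rw [petals, List.mem_map] at hw
    obtain ⟨q, hq, rfl⟩ := hw
    exact (List.of_mem_zip (List.mem_filter.1 hq).1).2
  have key : ∀ P : Word → Bool, M < (Ds.filter P).length →
      ∃ D ∈ Ds, P D = true ∧ ∀ w ∈ petals κ (g D).2, w ∉ S := by
    intro P hP
    by_contra hcon
    push Not at hcon
    have h1 := length_bad_le S B M hS ((Ds.filter P).map fun D => petals κ (g D).2)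
      (by
        rw [List.pairwise_map]
        exact hf2.filter _) (by
        intro l hl w hw
        obtain ⟨D, hD, rfl⟩ := List.mem_map.1 hl
        exact hB D (List.mem_filter.1 hD).1 w (hsub _ w hw))
    rw [List.filter_eq_self.2, List.length_map] at h1
    · omega
    · intro l hl
      obtain ⟨D, hD, rfl⟩ := List.mem_map.1 hl
      obtain ⟨h2, h3⟩ := List.mem_filter.1 hD
      exact decide_eq_true (hcon D h2 h3)
  obtain ⟨D, hD, h1, h2⟩ := key _ hs1
  obtain ⟨D', hD', h1', h2'⟩ := key _ hs2
  obtain ⟨a1, a2, a3⟩ := hrow D hD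
  obtain ⟨b1, b2, b3⟩ := hrow D' hD'
  have h3 := answerList_eq S κ (g D).2 (g D').2 a1 b1 (a3.trans b3.symm) h2 h2'
  have h4 := (hall D hD).2 h1
  rw [h3, a2.trans b2.symm] at h4
  have h5 := (hall D' hD').1 h4
  rw [h5] at h1'
  simp at h1'

end Pool.Agent.Lib.MP_634427_lc.Small
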